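import Pool.Agent.Q246.BI.Tor

/-! Rational induction at a finite level with characters inflated from a quotient. -/

set_option autoImplicit false
set_option linter.unusedSectionVars false

namespace Pool.Agent.Q273.SP

open MulAction Pool.Agent.Q246.BI
open scoped Classical

section
variable {G : Type} [Group G] [Finite G] {R : Type} [Group R] [Finite R]

/-- the group generated by functions induced from inflated linear characters of the subgroups with a
property and by the permutation characters -/
def TorI (π : G →* R) (P : Subgroup G → Prop) : AddSubgroup (G → ℂ) :=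
  AddSubgroup.closure {f | ∃ (H : Subgroup G) (ψ : H →* ℂˣ),
    ((P H ∧ ∀ h : H, π h = 1 → ψ h = 1) ∨ ψ = 1) ∧ f = Ind H (fun h => ((ψ h : ℂˣ) : ℂ))}

theorem torI_perm (π : G →* R) (P : Subgroup G → Prop) (H : Subgroup G) :
    Ind H (fun _ => 1) ∈ TorI π P := by
  refine AddSubgroup.subset_closure ⟨H, 1, Or.inr rfl, ?_⟩
  simp

theorem torI_main (π : G →* R) (S : Set G) (hS2 : ∀ t ∈ S, t * t = 1)
    (hcent : ∀ t ∈ S, ∀ g, g * t = t * g → π g = 1 ∨ π g = π t)
    (P : Subgroup G → Prop) (hP : ∀ H : Subgroup G, IsCyclic H → (∀ s ∈ S, s ∉ H) → P H)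
    (χ : R → ℂ) (hχ : IsCh χ) : ∃ m : ℕ, 0 < m ∧ (m • fun g => χ (π g)) ∈ TorI π P := by
  obtain ⟨m, f₁, f₂, hm, ⟨X, i1, i2, h1, h2⟩, ⟨X', i3, i4, h3, h4⟩, h5⟩ := artin_cyc (G := G)
  have hcl : ∀ g h : G, χ (π (h * g * h⁻¹)) = χ (π g) := by
    intro g h
    rw [map_mul, map_mul, map_inv, ch_conj hχ]
  have key : ∀ H : Subgroup G, IsCyclic H → Ind H (fun h => χ (π h)) ∈ TorI π P := by
    intro H hH
    have hab : ∀ a b : H, a * b = b * a := by
      obtain ⟨c, hc⟩ := hH
      intro a b
      obtain ⟨i, rfl⟩ := hc a
      obtain ⟨j, rfl⟩ := hc b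
      change c ^ i * c ^ j = c ^ j * c ^ i
      rw [← zpow_add, ← zpow_add, add_comm]
    let f : H →* R := π.comp H.subtype
    have habR : ∀ a b : f.range, a * b = b * a := by
      rintro ⟨_, ⟨a, rfl⟩⟩ ⟨_, ⟨b, rfl⟩⟩
      apply Subtype.ext
      change f a * f b = f b * f a
      rw [← map_mul, hab, map_mul]
    have h6 := abel_mem habR (fun r : f.range => χ r) (isCh_comp f.range.subtype hχ)
    have h7 : ∀ η : f.range → ℂ, η ∈ AddSubgroup.closure
        {f' : f.range → ℂ | ∃ ψ : f.range →* ℂˣ, f' = fun g => ((ψ g : ℂˣ) : ℂ)} →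
        Ind H (fun h => η (f.rangeRestrict h)) ∈ TorI π P := by
      intro η hη
      induction hη using AddSubgroup.closure_induction with
      | mem f' hf' =>
        obtain ⟨ψ, rfl⟩ := hf'
        let ψ' : H →* ℂˣ := ψ.comp f.rangeRestrict
        by_cases hST : ∃ t ∈ S, t ∈ H
        · obtain ⟨t, ht, htH⟩ := hST
          have hf : ∀ u : H, f u = 1 ∨ f u = π t := fun u => by
            refine hcent t ht u ?_
            exact congrArg Subtype.val (hab u ⟨t, htH⟩)
          have hpt : π t * π t = 1 := by rw [← map_mul, hS2 t ht, map_one]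
          have hsq : ∀ r : f.range, r * r = 1 := by
            rintro ⟨_, ⟨u, rfl⟩⟩
            apply Subtype.ext
            change f u * f u = 1
            rcases hf u with h | h
            · rw [h, mul_one]
            · rw [h, hpt]
          by_cases hψ : ψ' = 1
          · have h8 : (fun h : H => (fun g => ((ψ g : ℂˣ) : ℂ)) (f.rangeRestrict h)) =
                fun _ => 1 := by
              funext h
              have h9 := DFunLike.congr_fun hψ h
              change ((ψ' h : ℂˣ) : ℂ) = 1
              rw [hψ]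
              rfl
            rw [h8]
            exact torI_perm π P H
          · have h8 : (fun h : H => (fun g => ((ψ g : ℂˣ) : ℂ)) (f.rangeRestrict h)) =
                Ind ψ'.ker (fun _ => 1) - Ind ⊤ (fun _ => 1) := by
              refine quad_ind ψ' (fun g => ?_) hψ
              change ψ (f.rangeRestrict g) * ψ (f.rangeRestrict g) = 1
              rw [← map_mul, hsq, map_one]
            rw [h8, ind_sub, ind_perm, ind_perm]
            exact (TorI π P).sub_mem (torI_perm π P _) (torI_perm π P _)
        · push Not at hST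
          refine AddSubgroup.subset_closure ⟨H, ψ', Or.inl ⟨hP H hH hST, fun h hh => ?_⟩, rfl⟩
          change ψ (f.rangeRestrict h) = 1
          have h8 : f.rangeRestrict h = 1 := Subtype.ext hh
          rw [h8, map_one]
      | zero =>
        have h8 : (fun h : H => (0 : f.range → ℂ) (f.rangeRestrict h)) = 0 := rfl
        rw [h8, ind_zero]
        exact zero_mem _
      | add a b _ _ ha hb =>
        have h8 : (fun h : H => (a + b) (f.rangeRestrict h)) =
          (fun h : H => a (f.rangeRestrict h)) + fun h : H => b (f.rangeRestrict h) := rfl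
        rw [h8, ind_add]
        exact add_mem ha hb
      | neg a _ ha =>
        have h8 : (fun h : H => (-a) (f.rangeRestrict h)) =
          -(fun h : H => a (f.rangeRestrict h)) := rfl
        rw [h8, ind_neg]
        exact neg_mem ha
    exact h7 _ h6
  have h6 := perm_mul h2 (fun g => χ (π g)) hcl (TorI π P) fun x => key _ (h1 x)
  have h7 := perm_mul h4 (fun g => χ (π g)) hcl (TorI π P) fun x => key _ (h3 x)
  refine ⟨m, hm, ?_⟩
  have h8 : (m • fun g => χ (π g)) =
      (fun g => (f₁ g : ℂ) * χ (π g)) - fun g => (f₂ g : ℂ) * χ (π g) := by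
    funext g
    rw [Pi.sub_apply, Pi.smul_apply, h5, nsmul_eq_mul]
    push_cast
    ring
  rw [h8]
  exact (TorI π P).sub_mem h6 h7

end

end Pool.Agent.Q273.SP
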