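import Pool.Agent.Q246.BI.Solo

/-!
# Integral induction at a finite level: nontrivial centres or prime power order
-/

set_option autoImplicit false
set_option linter.unusedSectionVars false

namespace Pool.Agent.Q273.SP

open MulAction Pool.Agent.Q246.BI Pool.Agent.H302R3
open scoped Classical

/-- the group generated by functions induced from linear characters with a property -/
def Cl {G : Type} [Group G] (C : (H : Subgroup G) → (H →* ℂˣ) → Prop) : AddSubgroup (G → ℂ) :=
  AddSubgroup.closure {f | ∃ (H : Subgroup G) (ψ : H →* ℂˣ), C H ψ ∧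
    f = Ind H (fun h => ((ψ h : ℂˣ) : ℂ))}

section
variable {G : Type} [Group G] [Finite G]

theorem cl_ind (H : Subgroup G) (C' : (K : Subgroup H) → (K →* ℂˣ) → Prop)
    (C : (K : Subgroup G) → (K →* ℂˣ) → Prop)
    (hC : ∀ K ψ, C' K ψ → ∀ (K' : Subgroup G) (ψ' : K' →* ℂˣ),
      (∀ g, g ∈ K' ↔ ∃ h : g ∈ H, (⟨g, h⟩ : H) ∈ K) →
      (∀ k : K', ∃ k₀ : K, ψ' k = ψ k₀ ∧ (((k₀ : H) : G) = k)) → C K' ψ')
    {η : H → ℂ} (hη : η ∈ Cl C') : Ind H η ∈ Cl C := by
  induction hη using AddSubgroup.closure_induction with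
  | mem f hf =>
    obtain ⟨K, ψ, h1, rfl⟩ := hf
    have hK : ∀ g : G, g ∈ K.map H.subtype ↔ ∃ h : g ∈ H, (⟨g, h⟩ : H) ∈ K := by
      intro g
      constructor
      · rintro ⟨k, hk, rfl⟩
        exact ⟨k.2, hk⟩
      · rintro ⟨h, hk⟩
        exact ⟨⟨g, h⟩, hk, rfl⟩
    let ψ' : K.map H.subtype →* ℂˣ :=
      { toFun := fun k => ψ ⟨⟨k, ((hK _).1 k.2).choose⟩, ((hK _).1 k.2).choose_spec⟩
        map_one' := map_one ψ
        map_mul' := fun a b => by
          rw [← map_mul]
          rfl }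
    refine AddSubgroup.subset_closure ⟨K.map H.subtype, ψ', ?_, ?_⟩
    · exact hC K ψ h1 _ ψ' hK fun k => ⟨_, rfl, rfl⟩
    · exact ind_trans H K _ _ hK _ fun k hk hk' => rfl
  | zero => rw [ind_zero]; exact zero_mem _
  | add a b _ _ ha hb => rw [ind_add]; exact add_mem ha hb
  | neg a _ ha => rw [ind_neg]; exact neg_mem ha

theorem cl_infl {R : Type} [Group R] [Finite R] (π : G →* R) (hπ : Function.Surjective π)
    (C : (K : Subgroup R) → (K →* ℂˣ) → Prop) (C' : (K : Subgroup G) → (K →* ℂˣ) → Prop)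
    (hC : ∀ K ψ, C K ψ → ∀ ψ' : K.comap π →* ℂˣ,
      (∀ (g : G) (h : π g ∈ K), ψ' ⟨g, h⟩ = ψ ⟨π g, h⟩) → C' (K.comap π) ψ')
    {η : R → ℂ} (hη : η ∈ Cl C) : (fun g => η (π g)) ∈ Cl C' := by
  induction hη using AddSubgroup.closure_induction with
  | mem f hf =>
    obtain ⟨H, ψ, h1, rfl⟩ := hf
    let ψ' : H.comap π →* ℂˣ :=
      { toFun := fun k => ψ ⟨π k, k.2⟩
        map_one' := by
          rw [← map_one ψ]
          congr 1
          apply Subtype.ext
          change π 1 = 1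
          exact map_one π
        map_mul' := fun a b => by
          rw [← map_mul]
          congr 1
          apply Subtype.ext
          change π (a * b) = π a * π b
          exact map_mul π _ _ }
    refine AddSubgroup.subset_closure ⟨H.comap π, ψ', hC H ψ h1 ψ' fun g h => rfl, ?_⟩
    funext g
    exact ind_infl π hπ H _ _ (fun g => Iff.rfl) _ (fun g h' h => rfl) g
  | zero => exact zero_mem (Cl C')
  | add a b _ _ ha hb => exact add_mem (S := AddSubgroup (G → ℂ)) ha hb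
  | neg a _ ha => exact neg_mem (S := AddSubgroup (G → ℂ)) ha

/-- characters of hyperelementary groups -/
theorem hyp_cl {p : ℕ} (hp : p.Prime) (hG : HypP p G) (χ : G → ℂ) (hχ : IsCh χ) :
    χ ∈ Cl (fun (_ : Subgroup G) _ => True) := by
  refine (?_ : Mon (∅ : Set G) ≤ Cl _) (hyp_mon hp _ G rfl hG χ hχ)
  apply AddSubgroup.closure_mono
  rintro f ⟨H, ψ, -, rfl⟩
  exact ⟨H, ψ, trivial, rfl⟩

/-- characters of `p`-groups -/
theorem p_cl {p : ℕ} (hp : p.Prime) (hG : IsPGroup p G) (χ : G → ℂ) (hχ : IsCh χ) :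
    χ ∈ Cl (fun (H : Subgroup G) ψ => ∃ k : ℕ, ∀ h : H, ψ h ^ p ^ k = 1) := by
  have h1 : HypP p G := by
    refine ⟨1, by simp, fun u => ?_, fun u => ?_⟩
    · rw [mul_one, mul_inv_cancel]
      exact one_mem _
    · obtain ⟨k, hk⟩ := hG u
      exact ⟨k, by rw [hk]; exact one_mem _⟩
  refine (?_ : Mon (∅ : Set G) ≤ Cl _) (hyp_mon hp _ G rfl h1 χ hχ)
  apply AddSubgroup.closure_mono
  rintro f ⟨H, ψ, -, rfl⟩
  refine ⟨H, ψ, ?_, rfl⟩
  have hf2 : Fact (Nat.Prime p) := ⟨hp⟩
  obtain ⟨n, hn⟩ := IsPGroup.iff_card.1 hG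
  refine ⟨n, fun h => ?_⟩
  rw [← hn, ← map_pow]
  have h3 : h ^ Nat.card G = 1 := by
    apply Subtype.ext
    rw [Subgroup.coe_pow]
    exact pow_card_eq_one'
  rw [h3, map_one]

theorem cl_of_quot {W : Type} [AddCommGroup W] [Module ℂ W]
    (ρ : G →* Module.End ℂ W) {p : ℕ}
    (h : (fun x => LinearMap.trace ℂ W (QuotientGroup.lift ρ.ker ρ le_rfl x)) ∈
      Cl (fun (H : Subgroup (G ⧸ ρ.ker)) ψ => ∃ k : ℕ, ∀ h : H, ψ h ^ p ^ k = 1)) :
    (fun x => LinearMap.trace ℂ W (ρ x)) ∈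
      Cl (fun (H : Subgroup G) ψ => ∃ k : ℕ, ∀ h : H, ψ h ^ p ^ k = 1) := by
  have h1 := cl_infl (QuotientGroup.mk' ρ.ker) (QuotientGroup.mk'_surjective _) _
    (fun (H : Subgroup G) ψ => ∃ k : ℕ, ∀ h : H, ψ h ^ p ^ k = 1)
    (fun K ψ hk ψ' hψ' => by
      obtain ⟨k, hk⟩ := hk
      refine ⟨k, fun g => ?_⟩
      rw [hψ' g g.2]
      exact hk _) h
  have h2 : (fun x => LinearMap.trace ℂ W (ρ x)) = fun x =>
      (fun x => LinearMap.trace ℂ W (QuotientGroup.lift ρ.ker ρ le_rfl x))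
        (QuotientGroup.mk' ρ.ker x) := by
    funext x
    change _ = LinearMap.trace ℂ W (QuotientGroup.lift ρ.ker ρ le_rfl (x : G ⧸ ρ.ker))
    rw [QuotientGroup.lift_mk]
  rw [h2]
  exact h1

/-- the arithmetic of a coprime action on a cyclic group of prime power order -/
theorem coprime_action {l a p k : ℕ} (hl : l.Prime) (hp : p.Prime) (hlp : l ≠ p) {j : ℤ}
    (h1 : (l : ℤ) ∣ j - 1) (h2 : ((l ^ a : ℕ) : ℤ) ∣ j ^ p ^ k - 1) :
    ((l ^ a : ℕ) : ℤ) ∣ j - 1 := by
  have h3 : ((l ^ a : ℕ) : ℤ) ∣ j ^ l ^ a - 1 := by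
    have h4 := dvd_sub_pow_of_dvd_sub (R := ℤ) (p := l) (a := j) (b := 1) h1 a
    rw [one_pow] at h4
    refine dvd_trans ?_ h4
    push_cast
    exact pow_dvd_pow _ (Nat.le_succ a)
  have hcast : ∀ m : ℤ, ((l ^ a : ℕ) : ℤ) ∣ m ↔ (m : ZMod (l ^ a)) = 0 := fun m =>
    (ZMod.intCast_zmod_eq_zero_iff_dvd m (l ^ a)).symm
  rw [hcast] at h2 h3 ⊢
  push_cast at h2 h3 ⊢
  have h5 : (j : ZMod (l ^ a)) ^ p ^ k = 1 := sub_eq_zero.1 h2
  have h6 : (j : ZMod (l ^ a)) ^ l ^ a = 1 := sub_eq_zero.1 h3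
  have h7 : (j : ZMod (l ^ a)) ^ Nat.gcd (p ^ k) (l ^ a) = 1 := by
    have h9 := Nat.gcd_eq_gcd_ab (p ^ k) (l ^ a)
    have hu : IsUnit (j : ZMod (l ^ a)) := IsUnit.of_pow_eq_one h5
      (pow_ne_zero _ hp.ne_zero)
    obtain ⟨u, hu⟩ := hu
    rw [← hu] at h5 h6 ⊢
    have h5' : u ^ p ^ k = 1 := Units.ext (by push_cast; exact h5)
    have h6' : u ^ l ^ a = 1 := Units.ext (by push_cast; exact h6)
    have h7' := pow_gcd_eq_one.2 ⟨h5', h6'⟩
    rw [← Units.val_pow_eq_pow_val, h7', Units.val_one]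
  have h8 : Nat.gcd (p ^ k) (l ^ a) = 1 :=
    Nat.Coprime.pow _ _ ((Nat.coprime_primes hp hl).2 (Ne.symm hlp))
  rw [h8, pow_one] at h7
  exact sub_eq_zero.2 h7

variable {R : Type} [Group R] [Finite R]

/-- the good pairs -/
def CG (π : G →* R) (S : Set G) (H : Subgroup G) (ψ : H →* ℂˣ) : Prop :=
  (∀ h : H, π h = 1 → ψ h = 1) ∧
    (((∀ s ∈ S, s ∉ H) ∧ ((∃ z : G, π z ≠ 1 ∧ ∀ x ∈ H, x * z = z * x) ∨
      ∃ p k : ℕ, p.Prime ∧ ∀ h, ψ h ^ p ^ k = 1)) ∨ ∃ k : ℕ, ∀ h, ψ h ^ 2 ^ k = 1)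

/-- the good pairs on the image of a subgroup -/
def CQ (π : G →* R) (S : Set G) (H : Subgroup G) (K : Subgroup (π.comp H.subtype).range)
    (ψ : K →* ℂˣ) : Prop :=
  ((∀ s ∈ S, ∀ hs : s ∈ H, (π.comp H.subtype).rangeRestrict ⟨s, hs⟩ ∉ K) ∧
    ((∃ z : G, π z ≠ 1 ∧ ∀ x : H, (π.comp H.subtype).rangeRestrict x ∈ K → (x : G) * z = z * x) ∨
      ∃ p k : ℕ, p.Prime ∧ ∀ h, ψ h ^ p ^ k = 1)) ∨ ∃ k : ℕ, ∀ h, ψ h ^ 2 ^ k = 1

theorem pull (π : G →* R) (S : Set G) (H : Subgroup G) {η : (π.comp H.subtype).range → ℂ}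
    (hη : η ∈ Cl (CQ π S H)) :
    Ind H (fun h => η ((π.comp H.subtype).rangeRestrict h)) ∈ Cl (CG π S) := by
  refine cl_ind H (fun (K : Subgroup H) ψ => (∀ h : K, π (h : H) = 1 → ψ h = 1) ∧
    (((∀ s ∈ S, ∀ hs : s ∈ H, (⟨s, hs⟩ : H) ∉ K) ∧
      ((∃ z : G, π z ≠ 1 ∧ ∀ x : H, x ∈ K → (x : G) * z = z * x) ∨
      ∃ p k : ℕ, p.Prime ∧ ∀ h, ψ h ^ p ^ k = 1)) ∨ ∃ k : ℕ, ∀ h, ψ h ^ 2 ^ k = 1)) _ ?_ ?_
  · rintro K ψ ⟨h1, h2⟩ K' ψ' hK hψ
    refine ⟨fun h hh => ?_, ?_⟩
    · obtain ⟨k₀, h3, h4⟩ := hψ h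
      rw [h3]
      apply h1
      rw [h4]
      exact hh
    · rcases h2 with ⟨h2, h3⟩ | ⟨k, hk⟩
      · refine Or.inl ⟨fun s hs hsK => ?_, ?_⟩
        · obtain ⟨h4, h5⟩ := (hK s).1 hsK
          exact h2 s hs h4 h5
        · rcases h3 with ⟨z, hz, hz2⟩ | ⟨p, k, hp, hk⟩
          · refine Or.inl ⟨z, hz, fun x hx => ?_⟩
            obtain ⟨h4, h5⟩ := (hK x).1 hx
            exact hz2 ⟨x, h4⟩ h5
          · refine Or.inr ⟨p, k, hp, fun h => ?_⟩
            obtain ⟨k₀, h3, h4⟩ := hψ h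
            rw [h3]
            exact hk _
      · refine Or.inr ⟨k, fun h => ?_⟩
        obtain ⟨k₀, h3, h4⟩ := hψ h
        rw [h3]
        exact hk _
  · refine cl_infl (π.comp H.subtype).rangeRestrict (π.comp H.subtype).rangeRestrict_surjective
      (CQ π S H) _ ?_ hη
    intro K ψ h ψ' hψ'
    refine ⟨fun x hx => ?_, ?_⟩
    · rw [hψ' x x.2, ← map_one ψ]
      congr 1
      apply Subtype.ext
      apply Subtype.ext
      exact hx
    · rcases h with ⟨h2, h3⟩ | ⟨k, hk⟩
      · refine Or.inl ⟨fun s hs hsH hsK => h2 s hs hsH hsK, ?_⟩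
        rcases h3 with ⟨z, hz, hz2⟩ | ⟨p, k, hp, hk⟩
        · exact Or.inl ⟨z, hz, fun x hx => hz2 x hx⟩
        · refine Or.inr ⟨p, k, hp, fun x => ?_⟩
          rw [hψ' x x.2]
          exact hk _
      · refine Or.inr ⟨k, fun x => ?_⟩
        rw [hψ' x x.2]
        exact hk _

/-- the image of a hyperelementary group -/
theorem range_mem (π : G →* R) (S : Set G) (hS2 : ∀ t ∈ S, t * t = 1)
    (hcent : ∀ t ∈ S, ∀ g, g * t = t * g → π g = 1 ∨ π g = π t)
    (χ : R → ℂ) (hχ : IsCh χ) (H : Subgroup G) {p : ℕ} (hp : p.Prime) (hH : HypP p H)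
    (hpS : p = 2 ∨ ∀ s ∈ S, s ∉ H) :
    (fun r : (π.comp H.subtype).range => χ r) ∈ Cl (CQ π S H) := by
  have hH0 := hH
  obtain ⟨c, hc, hn, hpw⟩ := hH
  set f : H →* R := π.comp H.subtype with hf
  let Q := f.range
  let q : H →* Q := f.rangeRestrict
  have hq : Function.Surjective q := f.rangeRestrict_surjective
  have hHQ : HypP p Q := hypP_of_surjective q hq hH0
  let A : Subgroup Q := Subgroup.zpowers (q c)
  have hA : ∀ a b : A, a * b = b * a := by
    rintro ⟨_, ⟨i, rfl⟩⟩ ⟨_, ⟨j, rfl⟩⟩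
    apply Subtype.ext
    change q c ^ i * q c ^ j = q c ^ j * q c ^ i
    rw [← zpow_add, ← zpow_add, add_comm]
  have hnA : ∀ g a : Q, a ∈ A → g⁻¹ * a * g ∈ A := by
    rintro g _ ⟨i, rfl⟩
    obtain ⟨u, hu⟩ := hq g⁻¹
    obtain ⟨j, hj⟩ := hn u
    have hj' : c ^ j = u * c * u⁻¹ := hj
    have h1 : g⁻¹ * q c * g = q c ^ j := by
      rw [← map_zpow, hj', map_mul, map_mul, map_inv, hu, inv_inv]
    have h2 : (g⁻¹ * q c * g) ^ i = g⁻¹ * q c ^ i * g := by
      have := conj_zpow (i := i) (a := g⁻¹) (b := q c)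
      rwa [inv_inv] at this
    change g⁻¹ * q c ^ i * g ∈ A
    rw [← h2, h1]
    exact Subgroup.zpow_mem _ (Subgroup.zpow_mem _ (Subgroup.mem_zpowers _) j) i
  refine clifford A hnA hA _ ?_ _ (isCh_comp Q.subtype hχ)
  intro ψ W _ _ _ ρ hρ
  have hSt : HypP p (St A hnA ψ) := hHQ.of_injective (St A hnA ψ).subtype
    (Subgroup.subtype_injective _)
  by_cases hψ : ψ = 1
  · -- the trivial character: a `p`-group acts
    subst hψ
    refine cl_ind _ (fun (K : Subgroup _) ψ => ∃ k : ℕ, ∀ h : K, ψ h ^ p ^ k = 1) _ ?_ ?_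
    · rintro K ψ ⟨k, hk⟩ K' ψ' hK hψ
      have hk' : ∀ h : K', ψ' h ^ p ^ k = 1 := by
        intro h
        obtain ⟨k₀, h3, -⟩ := hψ h
        rw [h3]
        exact hk _
      rcases hpS with rfl | hpS
      · exact Or.inr ⟨k, hk'⟩
      · exact Or.inl ⟨fun s hs hsH => absurd hsH (hpS s hs), Or.inr ⟨p, k, hp, hk'⟩⟩
    · refine cl_of_quot ρ ?_
      refine p_cl hp ?_ _ (isCh_of_rep _)
      intro r
      induction r using QuotientGroup.induction_on with | _ u => ?_
      obtain ⟨w, hw⟩ := hq (u : Q)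
      obtain ⟨k, j, hj⟩ := hpw w
      have hj' : c ^ j = w ^ p ^ k := hj
      refine ⟨k, ?_⟩
      rw [← QuotientGroup.mk_pow]
      refine (QuotientGroup.eq_one_iff _).2 ?_
      rw [MonoidHom.mem_ker]
      have hmem : ((u ^ p ^ k : St A hnA 1) : Q) ∈ A := by
        refine ⟨j, ?_⟩
        change q c ^ j = _
        rw [Subgroup.coe_pow, ← hw, ← map_zpow, hj', map_pow]
      rw [hρ _ hmem]
      simp
  · -- a nontrivial character: a central element
    have hcA : q c ∈ A := Subgroup.mem_zpowers _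
    set ξ : ℂˣ := ψ ⟨q c, hcA⟩ with hξ
    have hψz : ∀ i : ℤ, ∀ h : q c ^ i ∈ A, ψ ⟨q c ^ i, h⟩ = ξ ^ i := by
      intro i h
      have h1 : (⟨q c ^ i, h⟩ : A) = (⟨q c, hcA⟩ : A) ^ i := rfl
      rw [h1, map_zpow]
    have hξ1 : ξ ≠ 1 := by
      intro h
      apply hψ
      apply MonoidHom.ext
      rintro ⟨_, ⟨i, rfl⟩⟩
      change ψ ⟨q c ^ i, _⟩ = 1
      rw [hψz, h, one_zpow]
    let N := orderOf c
    have hN0 : N ≠ 0 := (orderOf_pos c).ne'
    have hdN : orderOf ξ ∣ N := by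
      apply orderOf_dvd_of_pow_eq_one
      have h1 := hψz (N : ℤ) (Subgroup.zpow_mem _ hcA _)
      rw [← zpow_natCast, ← h1, ← map_one ψ]
      congr 1
      apply Subtype.ext
      change q c ^ (N : ℤ) = 1
      rw [zpow_natCast, ← map_pow, pow_orderOf_eq_one, map_one]
    obtain ⟨l, hl, hld⟩ := Nat.exists_prime_and_dvd (n := orderOf ξ)
      (fun h => hξ1 (orderOf_eq_one_iff.1 h))
    have hlN : l ∣ N := hld.trans hdN
    have hlp : l ≠ p := by
      rintro rfl
      have h1 : l ∣ Nat.gcd N l := Nat.dvd_gcd hlN dvd_rfl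
      rw [show Nat.gcd N l = 1 from hc] at h1
      exact hl.one_lt.ne' (Nat.dvd_one.1 h1)
    obtain ⟨a, N', hN', hNN'⟩ := Nat.exists_eq_pow_mul_and_not_dvd hN0 l hl.one_lt.ne'
    let z : H := c ^ N'
    have hzord : z ^ l ^ a = 1 := by
      change (c ^ N') ^ l ^ a = 1
      rw [← pow_mul, mul_comm, ← hNN']
      exact pow_orderOf_eq_one c
    have hξN' : ξ ^ N' ≠ 1 := fun h => hN' (hld.trans (orderOf_dvd_of_pow_eq_one h))
    have hzord2 : orderOf z = l ^ a := by
      change orderOf (c ^ N') = l ^ a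
      have hN'0 : 0 < N' := Nat.pos_of_ne_zero fun h => hN' (h ▸ dvd_zero _)
      have h1 : N = l ^ a * N' := hNN'
      rw [orderOf_pow' c hN'0.ne']
      change N / Nat.gcd N N' = l ^ a
      rw [h1, Nat.gcd_mul_left_left, Nat.mul_div_cancel _ hN'0]
    have hqz : q z = q c ^ (N' : ℤ) := by
      change q (c ^ N') = _
      rw [map_pow, zpow_natCast]
    have hπz : π (z : G) ≠ 1 := by
      intro h
      apply hξN'
      have h1 := hψz (N' : ℤ) (Subgroup.zpow_mem _ hcA _)
      rw [← zpow_natCast, ← h1, ← map_one ψ]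
      congr 1
      apply Subtype.ext
      change q c ^ (N' : ℤ) = 1
      rw [← hqz]
      apply Subtype.ext
      exact h
    -- the stabilizer commutes with `z`
    have hcomm : ∀ u : H, q u ∈ St A hnA ψ → (u : G) * z = z * u := by
      intro u hu
      obtain ⟨j, hj⟩ := hn u⁻¹
      have hj' : c ^ j = u⁻¹ * c * u := by
        have h1 : c ^ j = u⁻¹ * c * u⁻¹⁻¹ := hj
        rwa [inv_inv] at h1
      have hconj : ∀ i : ℤ, u⁻¹ * c ^ i * u = c ^ (j * i) := by
        intro i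
        rw [zpow_mul, hj']
        have := conj_zpow (i := i) (a := u⁻¹) (b := c)
        rw [inv_inv] at this
        exact this.symm
      have hzj : u⁻¹ * z * u = z ^ j := by
        have h1 := hconj N'
        rw [zpow_natCast] at h1
        change u⁻¹ * c ^ N' * u = (c ^ N') ^ j
        rw [h1, mul_comm, zpow_mul, zpow_natCast]
      -- `l` divides `j - 1`
      have h1 : (l : ℤ) ∣ j - 1 := by
        have h2 := hu ⟨q z, by rw [hqz]; exact Subgroup.zpow_mem _ hcA _⟩
        have h3 : (q u)⁻¹ * q z * q u = q c ^ ((N' : ℤ) * j) := by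
          rw [← map_inv, ← map_mul, ← map_mul, hzj, map_zpow, hqz, ← zpow_mul]
        have h4 : ψ ⟨q c ^ ((N' : ℤ) * j), Subgroup.zpow_mem _ hcA _⟩ =
            ψ ⟨q c ^ (N' : ℤ), Subgroup.zpow_mem _ hcA _⟩ := by
          have h5 : (⟨q c ^ ((N' : ℤ) * j), Subgroup.zpow_mem _ hcA _⟩ : A) =
              ⟨(q u)⁻¹ * q z * q u, by rw [h3]; exact Subgroup.zpow_mem _ hcA _⟩ :=
            Subtype.ext h3.symm
          have h6 : (⟨q c ^ (N' : ℤ), Subgroup.zpow_mem _ hcA _⟩ : A) =
              ⟨q z, by rw [hqz]; exact Subgroup.zpow_mem _ hcA _⟩ := Subtype.ext hqz.symm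
          rw [h5, h6]
          exact h2
        rw [hψz, hψz, zpow_mul, zpow_natCast] at h4
        have h5 : (ξ ^ N') ^ (j - 1) = 1 := by
          rw [zpow_sub_one, h4, mul_inv_cancel]
        have h6 : (orderOf (ξ ^ N') : ℤ) ∣ j - 1 := orderOf_dvd_iff_zpow_eq_one.2 h5
        refine dvd_trans ?_ h6
        have h7 : orderOf (ξ ^ N') ∣ l ^ a := by
          apply orderOf_dvd_of_pow_eq_one
          rw [← pow_mul, mul_comm, ← hNN']
          exact orderOf_dvd_iff_pow_eq_one.1 hdN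
        obtain ⟨b, -, hb⟩ := (Nat.dvd_prime_pow hl).1 h7
        rw [hb]
        have hb0 : b ≠ 0 := by
          rintro rfl
          rw [pow_zero] at hb
          exact hξN' (orderOf_eq_one_iff.1 hb)
        exact_mod_cast dvd_pow_self l hb0
      -- `l ^ a` divides `j ^ (p ^ k) - 1`
      obtain ⟨k, i, hi⟩ := hpw u
      have hi' : c ^ i = u ^ p ^ k := hi
      have hiter : ∀ m : ℕ, (u⁻¹) ^ m * z * u ^ m = z ^ (j ^ m) := by
        intro m
        induction m with
        | zero => rw [pow_zero, pow_zero, pow_zero, one_mul, mul_one, zpow_one]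
        | succ m ih =>
          have h2 : (u⁻¹) ^ (m + 1) * z * u ^ (m + 1) = u⁻¹ * ((u⁻¹) ^ m * z * u ^ m) * u := by
            rw [pow_succ' u⁻¹, pow_succ u]
            group
          rw [h2, ih]
          have h3 := conj_zpow (i := j ^ m) (a := u⁻¹) (b := z)
          rw [inv_inv] at h3
          rw [← h3, hzj, ← zpow_mul, pow_succ, mul_comm]
      have h2 : ((l ^ a : ℕ) : ℤ) ∣ j ^ p ^ k - 1 := by
        have h3 := hiter (p ^ k)
        have h4 : (u⁻¹) ^ p ^ k * z * u ^ p ^ k = z := by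
          rw [inv_pow, ← hi']
          change (c ^ i)⁻¹ * c ^ N' * c ^ i = c ^ N'
          rw [← zpow_natCast, ← zpow_neg, ← zpow_add, ← zpow_add]
          congr 1
          ring
        rw [h4] at h3
        have h5 : z ^ (j ^ p ^ k - 1) = 1 := by
          rw [zpow_sub_one, ← h3, mul_inv_cancel]
        rw [← hzord2]
        exact orderOf_dvd_iff_zpow_eq_one.2 h5
      have h3 := coprime_action hl hp hlp h1 h2
      have h4 : z ^ j = z := by
        rw [← hzord2] at h3
        have h5 := orderOf_dvd_iff_zpow_eq_one.1 h3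
        rw [zpow_sub_one, mul_inv_eq_one] at h5
        exact h5
      rw [h4] at hzj
      have h5 : z * u = u * z := by
        calc z * u = u * (u⁻¹ * z * u) := by group
          _ = u * z := by rw [hzj]
      exact (congrArg Subtype.val h5).symm
    refine cl_ind _ (fun (_ : Subgroup _) _ => True) _ ?_ (hyp_cl hp hSt _ (isCh_of_rep ρ))
    rintro K ψ₁ - K' ψ' hK -
    refine Or.inl ⟨fun s hs hsH hsK => ?_, Or.inl ⟨z, hπz, fun x hx => ?_⟩⟩
    · obtain ⟨h1, -⟩ := (hK _).1 hsK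
      have h2 := hcomm ⟨s, hsH⟩ h1
      have hp2 : p = 2 := hpS.resolve_right fun h => h s hs hsH
      rcases hcent s hs z h2.symm with h3 | h3
      · exact hπz h3
      · have h4 : π (z : G) ^ 2 = 1 := by
          rw [h3, ← map_pow, pow_two, hS2 s hs, map_one]
        have h5 : π (z : G) ^ l ^ a = 1 := by
          rw [← map_pow]
          have h6 := congrArg (fun t : H => π (t : G)) hzord
          simpa using h6
        have h7 := pow_gcd_eq_one.2 ⟨h4, h5⟩
        have h8 : Nat.gcd 2 (l ^ a) = 1 := by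
          have h9 : Nat.Coprime 2 l := (Nat.coprime_primes Nat.prime_two hl).2
            (fun h => hlp (by rw [← h, hp2]))
          exact Nat.Coprime.pow_right _ h9
        rw [h8, pow_one] at h7
        exact hπz h7
    · obtain ⟨h1, -⟩ := (hK _).1 hx
      exact hcomm x h1

/-- **The integral theorem at a finite level.** -/
theorem int_main (π : G →* R) (S : Set G) (hS2 : ∀ t ∈ S, t * t = 1)
    (hcent : ∀ t ∈ S, ∀ g, g * t = t * g → π g = 1 ∨ π g = π t)
    (χ : R → ℂ) (hχ : IsCh χ) : (fun g => χ (π g)) ∈ Cl (CG π S) := by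
  obtain ⟨f₁, f₂, ⟨X, i1, i2, h1, h2⟩, ⟨X', i3, i4, h3, h4⟩, h5⟩ := solomon (G := G)
  have hcl : ∀ g h : G, χ (π (h * g * h⁻¹)) = χ (π g) := by
    intro g h
    rw [map_mul, map_mul, map_inv, ch_conj hχ]
  have key : ∀ H : Subgroup G, (∃ p : ℕ, p.Prime ∧ HypP p H) →
      Ind H (fun h => χ (π h)) ∈ Cl (CG π S) := by
    rintro H ⟨p, hp, hH⟩
    refine pull π S H (η := fun r => χ r) ?_
    by_cases hpS : p = 2 ∨ ∀ s ∈ S, s ∉ H
    · exact range_mem π S hS2 hcent χ hχ H hp hH hpS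
    · push Not at hpS
      obtain ⟨hp2, t, ht, htH⟩ := hpS
      -- all elements commute with `t`
      have hPG : IsPGroup 2 (π.comp H.subtype).range := by
        obtain ⟨c, hc, hn, hpw⟩ := hH
        have hpo : Odd p := hp.odd_of_ne_two hp2
        have h1 : (⟨t, htH⟩ : H) ∈ Subgroup.zpowers c := by
          obtain ⟨k, hk⟩ := hpw ⟨t, htH⟩
          have h2 : Odd (p ^ k) := hpo.pow
          obtain ⟨m, hm⟩ := h2
          have h3 : (⟨t, htH⟩ : H) ^ (p ^ k) = ⟨t, htH⟩ := by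
            have h4 : (⟨t, htH⟩ : H) ^ 2 = 1 := by
              apply Subtype.ext
              rw [pow_two]
              exact hS2 t ht
            rw [hm, pow_add, pow_mul, h4, one_pow, one_mul, pow_one]
          rwa [h3] at hk
        have hcomm : ∀ u : H, (u : G) * t = t * u := by
          intro u
          by_cases ht1 : t = 1
          · rw [ht1, mul_one, one_mul]
          have h2 : u * ⟨t, htH⟩ * u⁻¹ ∈ Subgroup.zpowers c := by
            obtain ⟨j, hj⟩ := h1
            have hj' : c ^ j = ⟨t, htH⟩ := hj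
            rw [← hj', ← conj_zpow]
            exact Subgroup.zpow_mem _ (hn u) j
          let x : Subgroup.zpowers c := ⟨_, h1⟩
          let y : Subgroup.zpowers c := ⟨_, h2⟩
          have hx : x ^ 2 = 1 := by
            apply Subtype.ext
            apply Subtype.ext
            change t ^ 2 = 1
            rw [pow_two]
            exact hS2 t ht
          have hx1 : x ≠ 1 := by
            intro h
            exact ht1 (congrArg (fun z : Subgroup.zpowers c => ((z : H) : G)) h)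
          have hy : y ^ 2 = 1 := by
            apply Subtype.ext
            apply Subtype.ext
            change ((u : G) * t * (u : G)⁻¹) ^ 2 = 1
            rw [conj_pow, pow_two, hS2 t ht, mul_one, mul_inv_cancel]
          have hy1 : y ≠ 1 := by
            intro h
            have h3 := congrArg (fun z : Subgroup.zpowers c => ((z : H) : G)) h
            change (u : G) * t * (u : G)⁻¹ = 1 at h3
            apply ht1
            have h4 := conj_eq_one_iff.1 h3
            exact h4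
          have hcyc : IsCyclic (Subgroup.zpowers c) := inferInstance
          have hxy : x = y := by
            by_contra hne
            have : Fintype (Subgroup.zpowers c) := Fintype.ofFinite _
            have h5 := IsCyclic.card_pow_eq_one_le (α := Subgroup.zpowers c) (n := 2) (by norm_num)
            have h6 : ({1, x, y} : Finset (Subgroup.zpowers c)) ⊆
                Finset.univ.filter fun a : Subgroup.zpowers c => a ^ 2 = 1 := by
              intro z hz
              simp only [Finset.mem_insert, Finset.mem_singleton] at hz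
              rw [Finset.mem_filter]
              refine ⟨Finset.mem_univ _, ?_⟩
              rcases hz with rfl | rfl | rfl
              · exact one_pow 2
              · exact hx
              · exact hy
            have h7 := Finset.card_le_card h6
            have h8 : ({1, x, y} : Finset (Subgroup.zpowers c)).card = 3 := by
              rw [Finset.card_eq_three]
              exact ⟨1, x, y, hx1.symm, hy1.symm, hne, rfl⟩
            omega
          have h3 := congrArg (fun z : Subgroup.zpowers c => ((z : H) : G)) hxy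
          change t = (u : G) * t * (u : G)⁻¹ at h3
          calc (u : G) * t = ((u : G) * t * (u : G)⁻¹) * u := by group
            _ = t * u := by rw [← h3]
        have hpt : π t * π t = 1 := by rw [← map_mul, hS2 t ht, map_one]
        rintro ⟨_, ⟨u, rfl⟩⟩
        refine ⟨1, ?_⟩
        apply Subtype.ext
        change π (u : G) ^ 2 ^ 1 = 1
        rw [pow_one, pow_two]
        rcases hcent t ht u (hcomm u) with h | h
        · rw [h, mul_one]
        · rw [h, hpt]
      have h6 := p_cl Nat.prime_two hPG (fun r : (π.comp H.subtype).range => χ r)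
        (isCh_comp (π.comp H.subtype).range.subtype hχ)
      refine (?_ : Cl _ ≤ Cl (CQ π S H)) h6
      apply AddSubgroup.closure_mono
      rintro f ⟨K, ψ, h7, rfl⟩
      exact ⟨K, ψ, Or.inr h7, rfl⟩
  have h6 := perm_mul h2 (fun g => χ (π g)) hcl (Cl (CG π S)) fun x => key _ (h1 x)
  have h7 := perm_mul h4 (fun g => χ (π g)) hcl (Cl (CG π S)) fun x => key _ (h3 x)
  have h8 : (fun g => χ (π g)) =
      (fun g => (f₁ g : ℂ) * χ (π g)) - fun g => (f₂ g : ℂ) * χ (π g) := by
    funext g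
    rw [Pi.sub_apply, h5]
    push_cast
    ring
  rw [h8]
  exact (Cl (CG π S)).sub_mem h6 h7

end

end Pool.Agent.Q273.SP
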