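import Pool.Agent.Q273.SP.Comp

/-!
# Inertia groups act trivially outside a finite set of primes; separation of the primes of a field
-/

set_option autoImplicit false
set_option linter.unusedSectionVars false

namespace Pool.Agent.Q273.SP

open NumberField
open scoped Classical

section
variable {K : Type} [Field K] [NumberField K]

/-- an algebraic number divides an integer -/
theorem exists_div {δ : AlgebraicClosure K} (hδ : δ ≠ 0) :
    ∃ D : ℤ, D ≠ 0 ∧ ∀ (p : ℕ), p.Prime → ∀ w : AlgebraicClosure K → ℝ, IsPl p w → w δ < 1 →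
      (p : ℤ) ∣ D := by
  obtain ⟨D, hD, hint⟩ := (algebraic_int δ⁻¹).exists_integral_multiple
  refine ⟨D, hD, fun p hp w hw hlt => ?_⟩
  by_contra hndvd
  have h1 := hw.int_coprime hp hndvd
  have h2 := hw.integral_le hp hint
  rw [zsmul_eq_mul, hw.mul, h1, one_mul, hw.inv hp] at h2
  have h3 := hw.pos hp hδ
  have h4 := (one_lt_inv₀ h3).2 hlt
  exact absurd h2 (not_le.2 h4)

/-- a finite set of algebraic integers generating `L` -/
theorem exists_gen (L : IntermediateField K (AlgebraicClosure K)) [FiniteDimensional K L] :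
    ∃ Y : Finset (AlgebraicClosure K), (∀ y ∈ Y, y ∈ L ∧ IsIntegral ℤ y) ∧
      ∀ g : Gal(AlgebraicClosure K/K), (∀ y ∈ Y, g y = y) → ∀ x ∈ L, g x = x := by
  let b := Module.finBasis K L
  choose d hd hint using fun i => (algebraic_int ((b i : L) : AlgebraicClosure K)).exists_integral_multiple
  refine ⟨Finset.univ.image fun i => d i • ((b i : L) : AlgebraicClosure K), ?_, fun g hg x hx => ?_⟩
  · intro y hy
    obtain ⟨i, -, rfl⟩ := Finset.mem_image.1 hy
    exact ⟨zsmul_mem (b i).2 _, hint i⟩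
  · have h1 : ∀ i, g ((b i : L) : AlgebraicClosure K) = b i := by
      intro i
      have h2 := hg _ (Finset.mem_image_of_mem _ (Finset.mem_univ i))
      rw [map_zsmul, zsmul_eq_mul, zsmul_eq_mul] at h2
      exact mul_left_cancel₀ (by exact_mod_cast hd i) h2
    have h2 : x = ∑ i, (b.repr ⟨x, hx⟩ i) • ((b i : L) : AlgebraicClosure K) := by
      have h3 := congrArg (fun z : L => (z : AlgebraicClosure K)) (b.sum_repr ⟨x, hx⟩)
      simp only [IntermediateField.coe_sum, IntermediateField.coe_smul] at h3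
      exact h3.symm
    rw [h2, map_sum]
    refine Finset.sum_congr rfl fun i _ => ?_
    rw [Algebra.smul_def, map_mul, h1]
    congr 1
    exact g.commutes _

/-- **Finiteness of ramification** -/
theorem unramified (L : IntermediateField K (AlgebraicClosure K)) [FiniteDimensional K L] :
    ∃ T : Finset ℕ, (∀ p ∈ T, p.Prime) ∧ ∀ p : ℕ, p.Prime → p ∉ T →
      ∀ w : AlgebraicClosure K → ℝ, IsPl p w → ∀ g : Gal(AlgebraicClosure K/K),
        (∀ y, w y ≤ 1 → w (g y - y) < 1) → ∀ x ∈ L, g x = x := by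
  obtain ⟨Y, hY, hYL⟩ := exists_gen L
  let S : Finset (AlgebraicClosure K × AlgebraicClosure K) :=
    Y.biUnion fun y => (((minpoly K y).rootSet_finite (AlgebraicClosure K)).toFinset.erase y).image
      fun z => (y, z)
  have hS : ∀ s ∈ S, s.2 - s.1 ≠ 0 := by
    intro s hs
    obtain ⟨y, -, hs⟩ := Finset.mem_biUnion.1 hs
    obtain ⟨z, hz, rfl⟩ := Finset.mem_image.1 hs
    exact sub_ne_zero.2 (Finset.mem_erase.1 hz).1
  choose! D hD hDp using fun (s : AlgebraicClosure K × AlgebraicClosure K) (hs : s ∈ S) =>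
    exists_div (hS s hs)
  refine ⟨S.biUnion fun s => (D s).natAbs.primeFactors, ?_, fun p hp hpT w hw g hg => hYL g ?_⟩
  · intro p hp
    obtain ⟨s, -, hs⟩ := Finset.mem_biUnion.1 hp
    exact Nat.prime_of_mem_primeFactors hs
  · intro y hy
    by_contra hne
    have hint : IsIntegral K y := Algebra.IsIntegral.isIntegral y
    have hs : (y, g y) ∈ S := by
      refine Finset.mem_biUnion.2 ⟨y, hy, Finset.mem_image.2 ⟨g y, ?_, rfl⟩⟩
      refine Finset.mem_erase.2 ⟨hne, ?_⟩
      rw [Set.Finite.mem_toFinset, Polynomial.mem_rootSet]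
      refine ⟨minpoly.ne_zero hint, ?_⟩
      rw [← minpoly.algEquiv_eq g y]
      exact minpoly.aeval K _
    have h1 := hDp (y, g y) hs p hp w hw (hg y (hw.integral_le hp (hY y hy).2))
    apply hpT
    refine Finset.mem_biUnion.2 ⟨_, hs, ?_⟩
    rw [Nat.mem_primeFactors]
    exact ⟨hp, Int.natCast_dvd.1 h1, Int.natAbs_ne_zero.2 (hD _ hs)⟩

/-- the prime ideal of a number field below a place -/
def below (N : IntermediateField K (AlgebraicClosure K)) {p : ℕ} (hp : p.Prime)
    {w : AlgebraicClosure K → ℝ} (hw : IsPl p w) : Ideal (𝓞 N) where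
  carrier := {y | w ((y : N) : AlgebraicClosure K) < 1}
  add_mem' := by
    intro a b ha hb
    change w (((a + b : 𝓞 N) : N) : AlgebraicClosure K) < 1
    push_cast
    exact lt_of_le_of_lt (hw.add _ _) (max_lt ha hb)
  zero_mem' := by
    change w (((0 : 𝓞 N) : N) : AlgebraicClosure K) < 1
    push_cast
    rw [hw.zero]
    exact one_pos
  smul_mem' := by
    intro c a ha
    change w (((c * a : 𝓞 N) : N) : AlgebraicClosure K) < 1
    push_cast
    rw [hw.mul]
    have hc : IsIntegral ℤ ((c : N) : AlgebraicClosure K) := by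
      have h1 : IsIntegral ℤ (c : N) := c.isIntegral_coe
      exact h1.map (N.val.restrictScalars ℤ)
    exact lt_of_le_of_lt (mul_le_of_le_one_left (hw.nonneg _) (hw.integral_le hp hc)) ha

theorem mem_below (N : IntermediateField K (AlgebraicClosure K)) {p : ℕ} (hp : p.Prime)
    {w : AlgebraicClosure K → ℝ} (hw : IsPl p w) (y : 𝓞 N) :
    y ∈ below N hp hw ↔ w ((y : N) : AlgebraicClosure K) < 1 := Iff.rfl

theorem below_prime (N : IntermediateField K (AlgebraicClosure K)) {p : ℕ} (hp : p.Prime)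
    {w : AlgebraicClosure K → ℝ} (hw : IsPl p w) : (below N hp hw).IsPrime := by
  rw [Ideal.isPrime_iff]
  constructor
  · rw [Ideal.ne_top_iff_one, mem_below]
    push_cast
    rw [hw.one hp]
    exact lt_irrefl _
  · intro x y hxy
    rw [mem_below] at hxy ⊢
    rw [mem_below]
    by_contra hcon
    push Not at hcon
    push_cast at hxy
    rw [hw.mul] at hxy
    have := one_le_mul_of_one_le_of_one_le hcon.1 hcon.2
    exact absurd hxy (not_lt.2 this)

/-- **Separation**: finitely many algebraic integers separate the primes of `N` above `T`. -/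
theorem exists_separating (N : IntermediateField K (AlgebraicClosure K)) [FiniteDimensional K N]
    {T : Finset ℕ} (hT : ∀ p ∈ T, p.Prime) :
    ∃ Y : Finset (AlgebraicClosure K), (∀ y ∈ Y, IsIntegral ℤ y) ∧
      ∀ w u : AlgebraicClosure K → ℝ, w ∈ PL T → u ∈ PL T → (∀ y ∈ Y, (w y < 1 ↔ u y < 1)) →
        ∀ y : 𝓞 N, (w ((y : N) : AlgebraicClosure K) < 1 ↔ u ((y : N) : AlgebraicClosure K) < 1) := by
  have hNF : NumberField N := NumberField.of_module_finite K N
  let Q : ℕ := ∏ p ∈ T, p
  have hQ0 : Q ≠ 0 := Finset.prod_ne_zero_iff.2 fun p hp => (hT p hp).ne_zero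
  let I : Ideal (𝓞 N) := Ideal.span {(Q : 𝓞 N)}
  have hI : I ≠ 0 := by
    rw [Ne, Ideal.zero_eq_bot, Ideal.span_singleton_eq_bot]
    exact_mod_cast hQ0
  have hfin := Ideal.finite_factors hI
  let V := {v : IsDedekindDomain.HeightOneSpectrum (𝓞 N) // v.asIdeal ∣ I}
  have : Fintype V := hfin.fintype
  have hsep : ∀ v v' : V, ∃ y : 𝓞 N, v.1.asIdeal ≠ v'.1.asIdeal →
      ¬ (y ∈ v.1.asIdeal ↔ y ∈ v'.1.asIdeal) := by
    intro v v'
    by_contra hcon
    push Not at hcon
    exact (hcon 0).1 (Ideal.ext fun y => (hcon y).2)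
  choose f hf using hsep
  refine ⟨Finset.univ.image fun z : V × V => ((f z.1 z.2 : N) : AlgebraicClosure K), ?_, ?_⟩
  · intro y hy
    obtain ⟨z, -, rfl⟩ := Finset.mem_image.1 hy
    have h1 : IsIntegral ℤ (f z.1 z.2 : N) := (f z.1 z.2).isIntegral_coe
    exact h1.map (N.val.restrictScalars ℤ)
  · rintro w u ⟨p, hpT, hw⟩ ⟨q, hqT, hu⟩ hwu y
    have hp := hT p hpT
    have hq := hT q hqT
    have key : ∀ (p : ℕ) (hpT : p ∈ T) (w : AlgebraicClosure K → ℝ) (hw : IsPl p w),
        ∃ v : V, v.1.asIdeal = below N (hT p hpT) hw := by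
      intro p hpT w hw
      have hp := hT p hpT
      have hQw : w (Q : AlgebraicClosure K) < 1 := by
        have h1 : (Q : AlgebraicClosure K) = p * (∏ r ∈ T.erase p, r : ℕ) := by
          rw [← Nat.cast_mul]
          congr 1
          exact (Finset.mul_prod_erase T _ hpT).symm
        rw [h1, hw.mul]
        exact lt_of_le_of_lt (mul_le_of_le_one_right (hw.nonneg _) (hw.nat_le hp _)) (hw.p_lt hp)
      have hQm : (Q : 𝓞 N) ∈ below N hp hw := by
        rw [mem_below]
        push_cast
        exact hQw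
      have hle : I ≤ below N hp hw := by
        rw [Ideal.span_singleton_le_iff_mem]
        exact hQm
      refine ⟨⟨⟨below N hp hw, below_prime N hp hw, ?_⟩, ?_⟩, rfl⟩
      · intro hbot
        apply hI
        rw [Ideal.zero_eq_bot]
        rw [hbot] at hle
        exact le_bot_iff.1 hle
      · exact Ideal.dvd_iff_le.2 hle
    obtain ⟨v, hv⟩ := key p hpT w hw
    obtain ⟨v', hv'⟩ := key q hqT u hu
    have h1 : v.1.asIdeal = v'.1.asIdeal := by
      by_contra hne
      apply hf v v' hne
      rw [hv, hv', mem_below, mem_below]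
      exact hwu _ (Finset.mem_image.2 ⟨(v, v'), Finset.mem_univ _, rfl⟩)
    rw [hv, hv'] at h1
    have h2 : y ∈ below N hp hw ↔ y ∈ below N hq hu := by rw [h1]
    exact h2

end

end Pool.Agent.Q273.SP
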