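import Pool.Agent.Q246.BI.Main
import Pool.Agent.Q273.SP.Ram
import Pool.Agent.Q273.SP.Fin
import Pool.Agent.Q273.SP.Int

/-! Rational induction with ramification above one place only. -/

set_option autoImplicit false
set_option linter.unusedSectionVars false

namespace Pool.Agent.Q273.SP

open NumberField Pool.Agent.Q246.BI Pool.Agent.Q246.RP
open scoped Classical

section
variable {K : Type} [Field K] [NumberField K]

/-- the decomposition group of a place of `K̄` -/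
def Dec (w : AlgebraicClosure K → ℝ) (g : Gal(AlgebraicClosure K/K)) : Prop := ∀ x, w (g x) = w x

/-- the inertia group of a place of `K̄` -/
def Ine (w : AlgebraicClosure K → ℝ) (g : Gal(AlgebraicClosure K/K)) : Prop :=
  Dec w g ∧ ∀ x, w x ≤ 1 → w (g x - x) < 1

/-- the place `w` above `p` is bad for `(F, ψ)`: `ψ` is ramified at `w`, or `p ∈ T` and the
restriction of `ψ` to the decomposition group is not trivial -/
def Bad (T : Finset ℕ) (p : ℕ) (w : AlgebraicClosure K → ℝ)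
    (F : IntermediateField K (AlgebraicClosure K)) (ψ : F.fixingSubgroup →* ℂˣ) : Prop :=
  (∃ g : F.fixingSubgroup, Ine w (g : Gal(AlgebraicClosure K/K)) ∧ ψ g ≠ 1) ∨
    (p ∈ T ∧ ∃ g : F.fixingSubgroup, Dec w (g : Gal(AlgebraicClosure K/K)) ∧ ψ g ≠ 1)

/-- all bad places of `(F, ψ)` lie above one prime ideal of `N` -/
def OnePlace (T : Finset ℕ) (N F : IntermediateField K (AlgebraicClosure K))
    (ψ : F.fixingSubgroup →* ℂˣ) : Prop :=
  ∀ p q : ℕ, p.Prime → q.Prime → ∀ w u : AlgebraicClosure K → ℝ, IsPl p w → IsPl q u →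
    Bad T p w F ψ → Bad T q u F ψ → ∀ y : 𝓞 N,
      (w ((y : N) : AlgebraicClosure K) < 1 ↔ u ((y : N) : AlgebraicClosure K) < 1)

/-- the projection between levels -/
noncomputable def proj (F₀ : IntermediateField K (AlgebraicClosure K))
    {L L' : IntermediateField K (AlgebraicClosure K)} [Normal K L] [Normal K L'] (h : L ≤ L') :
    (F₀.fixingSubgroup ⧸ NN F₀ L') →* (F₀.fixingSubgroup ⧸ NN F₀ L) :=
  QuotientGroup.map (NN F₀ L') (NN F₀ L) (MonoidHom.id _) (by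
    intro v hv
    exact Subgroup.mem_subgroupOf.2 (IntermediateField.fixingSubgroup_antitone h
      (Subgroup.mem_subgroupOf.1 hv)))

theorem proj_mk (F₀ : IntermediateField K (AlgebraicClosure K))
    {L L' : IntermediateField K (AlgebraicClosure K)} [Normal K L] [Normal K L'] (h : L ≤ L')
    (v : F₀.fixingSubgroup) :
    proj F₀ h (QuotientGroup.mk' (NN F₀ L') v) = QuotientGroup.mk' (NN F₀ L) v := rfl

/-- two elements whose classes commute, commute on the field -/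
theorem comm_on (F₀ L' : IntermediateField K (AlgebraicClosure K)) [Normal K L']
    {a b : F₀.fixingSubgroup}
    (h : QuotientGroup.mk' (NN F₀ L') a * QuotientGroup.mk' (NN F₀ L') b =
      QuotientGroup.mk' (NN F₀ L') b * QuotientGroup.mk' (NN F₀ L') a) (x : AlgebraicClosure K)
    (hx : x ∈ L') : (a : Gal(AlgebraicClosure K/K)) ((b : Gal(AlgebraicClosure K/K)) x) =
      (b : Gal(AlgebraicClosure K/K)) ((a : Gal(AlgebraicClosure K/K)) x) := by
  rw [← map_mul, ← map_mul] at h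
  have h1 : (a * b)⁻¹ * (b * a) ∈ NN F₀ L' := QuotientGroup.eq.1 h
  rw [mem_nn] at h1
  have h3 := h1 x hx
  change ((a : Gal(AlgebraicClosure K/K)) * (b : Gal(AlgebraicClosure K/K))).symm
    ((b : Gal(AlgebraicClosure K/K)) ((a : Gal(AlgebraicClosure K/K)) x)) = x at h3
  rw [AlgEquiv.symm_apply_eq] at h3
  exact h3.symm

/-- the levels -/
theorem levels' (F₀ : IntermediateField K (AlgebraicClosure K)) [FiniteDimensional K F₀]
    {χ : F₀.fixingSubgroup → ℂ} (hχ : IsCharacter F₀ χ) {M : ℕ} (hM : 0 < M)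
    {T : Finset ℕ} (hT : ∀ p ∈ T, p.Prime)
    (N : IntermediateField K (AlgebraicClosure K)) [FiniteDimensional K N] :
    ∃ (L L' : IntermediateField K (AlgebraicClosure K)) (_ : FiniteDimensional K L)
      (_ : Normal K L) (_ : FiniteDimensional K L') (_ : Normal K L') (hLL' : L ≤ L'), F₀ ≤ L ∧
      ∃ χ' : (F₀.fixingSubgroup ⧸ NN F₀ L) → ℂ, IsCh χ' ∧
        (∀ v, χ v = χ' (QuotientGroup.mk' (NN F₀ L) v)) ∧
        (∀ t ∈ SS F₀ L', t * t = 1) ∧
        (∀ t ∈ SS F₀ L', ∀ g, g * t = t * g →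
          proj F₀ hLL' g = 1 ∨ proj F₀ hLL' g = proj F₀ hLL' t) ∧
        ∀ (H : Subgroup (F₀.fixingSubgroup ⧸ NN F₀ L'))
          (F : IntermediateField K (AlgebraicClosure K)),
            (∀ g : Gal(AlgebraicClosure K/K), g ∈ F.fixingSubgroup ↔
              ∃ hv : g ∈ F₀.fixingSubgroup, QuotientGroup.mk' (NN F₀ L') ⟨g, hv⟩ ∈ H) →
            (IsCyclic H → M ∣ Module.finrank K F) ∧
            (((∃ z, proj F₀ hLL' z ≠ 1 ∧ ∀ x ∈ H, x * z = z * x) ∨ IsCyclic H) →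
              ∀ ψ : F.fixingSubgroup →* ℂˣ,
              (∀ g : F.fixingSubgroup, (∀ x ∈ L, (g : Gal(AlgebraicClosure K/K)) x = x) → ψ g = 1) →
              OnePlace T N F ψ) := by
  obtain ⟨n, τ, ⟨E, hE, hEτ⟩, hτ⟩ := hχ
  let S₀ : IntermediateField K (AlgebraicClosure K) := F₀ ⊔ E
  have hS₀ : FiniteDimensional K S₀ := IntermediateField.finiteDimensional_sup _ _
  let L : IntermediateField K (AlgebraicClosure K) :=
    IntermediateField.normalClosure K S₀ (AlgebraicClosure K)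
  have hLfd : FiniteDimensional K L := inferInstance
  have hLn : Normal K L := inferInstance
  have hSL : S₀ ≤ L := IntermediateField.le_normalClosure S₀
  have hF₀L : F₀ ≤ L := (le_sup_left : F₀ ≤ S₀).trans hSL
  have hEL : E ≤ L := (le_sup_right : E ≤ S₀).trans hSL
  obtain ⟨L₁, hfd₁, hn₁, hLL₁, hbig⟩ := exists_big L
  obtain ⟨L₂, hL₂, hdeg⟩ := exists_deg (K := K) hM
  obtain ⟨T₀, hT₀, hunr⟩ := unramified L
  have hT' : ∀ p ∈ T ∪ T₀, p.Prime := by
    intro p hp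
    rcases Finset.mem_union.1 hp with h | h
    · exact hT p h
    · exact hT₀ p h
  obtain ⟨Y, hY, hsep⟩ := exists_separating N hT'
  obtain ⟨L₃, hfd₃, hn₃, hLL₃, hlev⟩ := level L hT' Y hY
  let S : IntermediateField K (AlgebraicClosure K) := L₁ ⊔ (L₂ ⊔ L₃)
  have hS1 : FiniteDimensional K (L₂ ⊔ L₃ : IntermediateField K (AlgebraicClosure K)) :=
    IntermediateField.finiteDimensional_sup _ _
  have hS : FiniteDimensional K S := IntermediateField.finiteDimensional_sup _ _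
  let L' : IntermediateField K (AlgebraicClosure K) :=
    IntermediateField.normalClosure K S (AlgebraicClosure K)
  have hL'fd : FiniteDimensional K L' := inferInstance
  have hL'n : Normal K L' := inferInstance
  have hSL' : S ≤ L' := IntermediateField.le_normalClosure S
  have h1L' : L₁ ≤ L' := (le_sup_left : L₁ ≤ S).trans hSL'
  have h2L' : L₂ ≤ L' := ((le_sup_left : L₂ ≤ L₂ ⊔ L₃).trans (le_sup_right : L₂ ⊔ L₃ ≤ S)).trans hSL'
  have h3L' : L₃ ≤ L' := ((le_sup_right : L₃ ≤ L₂ ⊔ L₃).trans (le_sup_right : L₂ ⊔ L₃ ≤ S)).trans hSL'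
  have hLL' : L ≤ L' := hLL₁.trans h1L'
  obtain ⟨χ', hχ', hχχ'⟩ := isCh_of_isCharacter F₀ L hτ (fun g hg => hEτ g
    (IntermediateField.fixingSubgroup_antitone hEL hg))
  refine ⟨L, L', hLfd, hLn, hL'fd, hL'n, hLL', hF₀L, χ', hχ', hχχ', ?_, ?_, ?_⟩
  · rintro _ ⟨t, ht, rfl⟩
    rw [← map_mul]
    have h1 : t * t = 1 := Subtype.ext (cc_sq ht)
    rw [h1, map_one]
  · rintro _ ⟨t, ht, rfl⟩ g hg
    obtain ⟨g, rfl⟩ := QuotientGroup.mk'_surjective _ g
    rw [proj_mk, proj_mk]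
    rcases hbig t g ht (fun x hx => comm_on F₀ L' hg x (h1L' hx)) with h3 | h3
    · left
      exact (QuotientGroup.eq_one_iff _).2 ((mem_nn F₀ L g).2 h3)
    · right
      refine (QuotientGroup.eq.2 ?_).symm
      rw [mem_nn]
      intro x hx
      change (t : Gal(AlgebraicClosure K/K)).symm ((g : Gal(AlgebraicClosure K/K)) x) = x
      rw [AlgEquiv.symm_apply_eq]
      exact h3 x hx
  · intro H F hF
    constructor
    · rintro ⟨⟨c, hcH⟩, hc⟩
      obtain ⟨σ, rfl⟩ := QuotientGroup.mk'_surjective _ c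
      obtain ⟨F₁, hF₁, hσ, hfdF₁, hM₁⟩ := hdeg (σ : Gal(AlgebraicClosure K/K))
      have hF₁L' : F₁ ≤ L' := hF₁.trans h2L'
      have hle₁ : F.fixingSubgroup ≤ F₁.fixingSubgroup := by
        intro g hg
        obtain ⟨hv, hgH⟩ := (hF g).1 hg
        obtain ⟨k, hk⟩ := hc ⟨_, hgH⟩
        have hk' : QuotientGroup.mk' (NN F₀ L') (σ ^ k) = QuotientGroup.mk' (NN F₀ L') ⟨g, hv⟩ := by
          rw [map_zpow]
          exact congrArg Subtype.val hk
        have h1 : (σ ^ k)⁻¹ * ⟨g, hv⟩ ∈ NN F₀ L' := QuotientGroup.eq.1 hk'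
        rw [mem_nn] at h1
        rw [IntermediateField.mem_fixingSubgroup_iff]
        intro x hx
        have h2 := h1 x (hF₁L' hx)
        change ((σ ^ k : F₀.fixingSubgroup) : Gal(AlgebraicClosure K/K)).symm (g x) = x at h2
        rw [AlgEquiv.symm_apply_eq] at h2
        change g x = x
        rw [h2, Subgroup.coe_zpow]
        have h4 : (σ : Gal(AlgebraicClosure K/K)) ∈
          MulAction.stabilizer (Gal(AlgebraicClosure K/K)) x := hσ x hx
        exact Subgroup.zpow_mem _ h4 k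
      have hle₂ : F₁ ≤ F := by
        have h2 : IntermediateField.fixedField F₁.fixingSubgroup ≤
            IntermediateField.fixedField F.fixingSubgroup := by
          intro x hx
          rw [IntermediateField.mem_fixedField_iff] at hx ⊢
          exact fun g hg => hx g (hle₁ hg)
        rwa [InfiniteGalois.fixedField_fixingSubgroup, InfiniteGalois.fixedField_fixingSubgroup] at h2
      exact hM₁.trans (IntermediateField.finrank_dvd_of_le_right hle₂)
    · intro hz ψ hψ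
      -- a bad place lies above `T ∪ T₀` and has a decomposition element which is not trivial on `L`
      have hbad : ∀ (p : ℕ) (w : AlgebraicClosure K → ℝ), p.Prime → IsPl p w → Bad T p w F ψ →
          w ∈ PL (T ∪ T₀) ∧ ∃ g : F.fixingSubgroup, Dec w (g : Gal(AlgebraicClosure K/K)) ∧
            ¬ ∀ x ∈ L, (g : Gal(AlgebraicClosure K/K)) x = x := by
        intro p w hp hw h
        rcases h with ⟨g, hg, hgψ⟩ | ⟨hpT, g, hg, hgψ⟩
        · have h1 : ¬ ∀ x ∈ L, (g : Gal(AlgebraicClosure K/K)) x = x := fun h => hgψ (hψ g h)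
          refine ⟨⟨p, ?_, hw⟩, g, hg.1, h1⟩
          by_contra hpT
          refine h1 (hunr p hp (fun h2 => hpT (Finset.mem_union_right _ h2)) w hw g hg.2)
        · exact ⟨⟨p, Finset.mem_union_left _ hpT, hw⟩, g, hg, fun h => hgψ (hψ g h)⟩
      intro p q hp hq w u hw hu hbw hbu
      obtain ⟨hwP, g, hgw, hgL⟩ := hbad p w hp hw hbw
      obtain ⟨huP, h, hhu, hhL⟩ := hbad q u hq hu hbu
      obtain ⟨hvg, hgH⟩ := (hF g).1 g.2
      obtain ⟨hvh, hhH⟩ := (hF h).1 h.2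
      -- the third element
      obtain ⟨k, hkL, hgk, hhk⟩ : ∃ k : F₀.fixingSubgroup,
          (¬ ∀ x ∈ L, (k : Gal(AlgebraicClosure K/K)) x = x) ∧
          QuotientGroup.mk' (NN F₀ L') ⟨g, hvg⟩ * QuotientGroup.mk' (NN F₀ L') k =
            QuotientGroup.mk' (NN F₀ L') k * QuotientGroup.mk' (NN F₀ L') ⟨g, hvg⟩ ∧
          QuotientGroup.mk' (NN F₀ L') ⟨h, hvh⟩ * QuotientGroup.mk' (NN F₀ L') k =
            QuotientGroup.mk' (NN F₀ L') k * QuotientGroup.mk' (NN F₀ L') ⟨h, hvh⟩ := by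
        rcases hz with ⟨z, hz1, hz2⟩ | ⟨⟨c, hcH⟩, hc⟩
        · obtain ⟨k, rfl⟩ := QuotientGroup.mk'_surjective _ z
          refine ⟨k, fun h1 => hz1 ?_, hz2 _ hgH, hz2 _ hhH⟩
          rw [proj_mk]
          exact (QuotientGroup.eq_one_iff _).2 ((mem_nn F₀ L k).2 h1)
        · have hab : ∀ a b : H, a * b = b * a := by
            intro a b
            obtain ⟨i, rfl⟩ := hc a
            obtain ⟨j, rfl⟩ := hc b
            change (⟨c, hcH⟩ : H) ^ i * (⟨c, hcH⟩ : H) ^ j = (⟨c, hcH⟩ : H) ^ j * (⟨c, hcH⟩ : H) ^ i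
            rw [← zpow_add, ← zpow_add, add_comm]
          exact ⟨⟨g, hvg⟩, hgL, rfl, congrArg Subtype.val (hab ⟨_, hhH⟩ ⟨_, hgH⟩)⟩
      have hgk' : ∀ x ∈ L₃, (g : Gal(AlgebraicClosure K/K)) ((k : Gal(AlgebraicClosure K/K)) x) =
          (k : Gal(AlgebraicClosure K/K)) ((g : Gal(AlgebraicClosure K/K)) x) := fun x hx =>
        comm_on F₀ L' (a := ⟨g, hvg⟩) (b := k) hgk x (h3L' hx)
      have hhk' : ∀ x ∈ L₃, (h : Gal(AlgebraicClosure K/K)) ((k : Gal(AlgebraicClosure K/K)) x) =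
          (k : Gal(AlgebraicClosure K/K)) ((h : Gal(AlgebraicClosure K/K)) x) := fun x hx =>
        comm_on F₀ L' (a := ⟨h, hvh⟩) (b := k) hhk x (h3L' hx)
      exact hsep w u hwP huP (hlev g h k w u hwP huP hgk' hhk' hgw hhu hgL hhL hkL)

/-- the linear character of a subgroup at a finite level, with its values -/
theorem exists_lin' (F₀ L : IntermediateField K (AlgebraicClosure K))
    [FiniteDimensional K L] [Normal K L] (hle : F₀ ≤ L)
    (H : Subgroup (F₀.fixingSubgroup ⧸ NN F₀ L)) (ψ : H →* ℂˣ)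
    (F : IntermediateField K (AlgebraicClosure K))
    (hF : ∀ g : Gal(AlgebraicClosure K/K), g ∈ F.fixingSubgroup ↔
        ∃ hv : g ∈ F₀.fixingSubgroup, QuotientGroup.mk' (NN F₀ L) ⟨g, hv⟩ ∈ H) :
    ∃ ψ' : F.fixingSubgroup →* ℂˣ, Smooth F ψ' ∧
      (∀ (g : F.fixingSubgroup) (hv : (g : Gal(AlgebraicClosure K/K)) ∈ F₀.fixingSubgroup)
        (h : QuotientGroup.mk' (NN F₀ L) ⟨g, hv⟩ ∈ H),
        ψ' g = ψ ⟨QuotientGroup.mk' (NN F₀ L) ⟨g, hv⟩, h⟩) ∧
      ∀ v : F₀.fixingSubgroup, induced F₀ F (fun g => ((ψ' g : ℂˣ) : ℂ)) v =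
        Ind H (fun h => ((ψ h : ℂˣ) : ℂ)) (QuotientGroup.mk' (NN F₀ L) v) := by
  let ψ' : F.fixingSubgroup →* ℂˣ :=
    { toFun := fun g => ψ ⟨QuotientGroup.mk' (NN F₀ L) ⟨g, ((hF g).1 g.2).choose⟩,
        ((hF g).1 g.2).choose_spec⟩
      map_one' := map_one ψ
      map_mul' := fun a b => by
        rw [← map_mul]
        rfl }
  have hψ' : ∀ (g : Gal(AlgebraicClosure K/K)) (hg : g ∈ F.fixingSubgroup)
      (hv : g ∈ F₀.fixingSubgroup) (h : QuotientGroup.mk' (NN F₀ L) ⟨g, hv⟩ ∈ H),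
      ψ' ⟨g, hg⟩ = ψ ⟨QuotientGroup.mk' (NN F₀ L) ⟨g, hv⟩, h⟩ := fun g hg hv h => rfl
  refine ⟨ψ', ⟨L, inferInstance, fun g hg => ?_⟩, fun g hv h => hψ' g g.2 hv h, fun v => ?_⟩
  · have hv : (g : Gal(AlgebraicClosure K/K)) ∈ F₀.fixingSubgroup := ((hF g).1 g.2).choose
    have h1 : QuotientGroup.mk' (NN F₀ L) ⟨g, hv⟩ = 1 :=
      (QuotientGroup.eq_one_iff _).2 (Subgroup.mem_subgroupOf.2 hg)
    have h2 : QuotientGroup.mk' (NN F₀ L) ⟨g, hv⟩ ∈ H := by rw [h1]; exact H.one_mem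
    rw [show ψ' g = ψ ⟨QuotientGroup.mk' (NN F₀ L) ⟨g, hv⟩, h2⟩ from hψ' g g.2 hv h2, ← map_one ψ]
    congr 1
    exact Subtype.ext h1
  · rw [← ind_coset (QuotientGroup.mk' (NN F₀ L)) (QuotientGroup.mk'_surjective _) H _
      (fun a b => by rw [map_mul, map_mul, map_inv, mul_comm, mul_inv_cancel_left])
      (F.fixingSubgroup.subgroupOf F₀.fixingSubgroup) (fun w => ?_) v]
    · unfold induced
      refine finsum_congr fun x => ?_
      by_cases hx : ((x.out⁻¹ * v * x.out : F₀.fixingSubgroup) : Gal(AlgebraicClosure K/K)) ∈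
        F.fixingSubgroup
      · rw [dif_pos hx]
        obtain ⟨hv, h⟩ := (hF _).1 hx
        rw [ext_mem h]
        exact congrArg Units.val (hψ' _ hx hv h)
      · rw [dif_neg hx]
        symm
        apply ext_not_mem
        intro h
        exact hx ((hF _).2 ⟨(x.out⁻¹ * v * x.out : F₀.fixingSubgroup).2, h⟩)
    · rw [Subgroup.mem_subgroupOf, hF]
      exact ⟨fun ⟨_, h⟩ => h, fun h => ⟨w.2, h⟩⟩

/-- the generators of the rational theorem -/
def GenP (F₀ : IntermediateField K (AlgebraicClosure K)) (M : ℕ) (T : Finset ℕ)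
    (N : IntermediateField K (AlgebraicClosure K)) : Set (F₀.fixingSubgroup → ℂ) :=
  {f | ∃ (F : IntermediateField K (AlgebraicClosure K)) (ψ : F.fixingSubgroup →* ℂˣ),
    F₀ ≤ F ∧ FiniteDimensional K F ∧ Smooth F ψ ∧
    ((IsEmpty (F →+* ℝ) ∧ M ∣ Module.finrank K F ∧ OnePlace T N F ψ) ∨ ψ = 1) ∧
    f = induced F₀ F (fun g => ((ψ g : ℂˣ) : ℂ))}

/-- the generators of the integral theorem -/
def GenI (F₀ : IntermediateField K (AlgebraicClosure K)) (T : Finset ℕ)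
    (N : IntermediateField K (AlgebraicClosure K)) : Set (F₀.fixingSubgroup → ℂ) :=
  {f | ∃ (F : IntermediateField K (AlgebraicClosure K)) (ψ : F.fixingSubgroup →* ℂˣ),
    F₀ ≤ F ∧ FiniteDimensional K F ∧ Smooth F ψ ∧
    ((IsEmpty (F →+* ℝ) ∧ (OnePlace T N F ψ ∨ ∃ p k : ℕ, p.Prime ∧ ∀ g, ψ g ^ p ^ k = 1)) ∨
      ∃ k : ℕ, ∀ g, ψ g ^ 2 ^ k = 1) ∧
    f = induced F₀ F (fun g => ((ψ g : ℂˣ) : ℂ))}

/-- from the finite level to fields -/
theorem gen_of_fin' (F₀ L L' : IntermediateField K (AlgebraicClosure K)) [Normal K L]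
    [FiniteDimensional K L'] [Normal K L'] (hLL' : L ≤ L') (hle : F₀ ≤ L')
    (H : Subgroup (F₀.fixingSubgroup ⧸ NN F₀ L')) (ψ : H →* ℂˣ) :
    ∃ (F : IntermediateField K (AlgebraicClosure K)) (ψ' : F.fixingSubgroup →* ℂˣ),
      F₀ ≤ F ∧ FiniteDimensional K F ∧ Smooth F ψ' ∧
      (∀ g : Gal(AlgebraicClosure K/K), g ∈ F.fixingSubgroup ↔
        ∃ hv : g ∈ F₀.fixingSubgroup, QuotientGroup.mk' (NN F₀ L') ⟨g, hv⟩ ∈ H) ∧
      ((∀ s ∈ SS F₀ L', s ∉ H) → IsEmpty (F →+* ℝ)) ∧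
      ((∀ h : H, proj F₀ hLL' h = 1 → ψ h = 1) → ∀ g : F.fixingSubgroup,
        (∀ x ∈ L, (g : Gal(AlgebraicClosure K/K)) x = x) → ψ' g = 1) ∧
      (∀ g, ∃ h : H, ψ' g = ψ h) ∧
      (fun v => Ind H (fun h => ((ψ h : ℂˣ) : ℂ)) (QuotientGroup.mk' (NN F₀ L') v)) =
        induced F₀ F (fun g => ((ψ' g : ℂˣ) : ℂ)) := by
  obtain ⟨F, hF₀F, hFL, hF⟩ := exists_field F₀ L' hle H
  obtain ⟨ψ', hψ's, hψ'v, hψ'i⟩ := exists_lin' F₀ L' hle H ψ F hF
  have hfd : FiniteDimensional K F := FiniteDimensional.of_injective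
    (IntermediateField.inclusion hFL).toLinearMap (IntermediateField.inclusion_injective hFL)
  refine ⟨F, ψ', hF₀F, hfd, hψ's, hF, fun h1 => totally_complex F₀ L' H h1 F hF,
    fun h1 g hg => ?_, fun g => ?_, (funext hψ'i).symm⟩
  · obtain ⟨hv, hgH⟩ := (hF g).1 g.2
    rw [hψ'v g hv hgH]
    apply h1
    change proj F₀ hLL' (QuotientGroup.mk' (NN F₀ L') ⟨g, hv⟩) = 1
    rw [proj_mk]
    exact (QuotientGroup.eq_one_iff _).2 ((mem_nn F₀ L ⟨g, hv⟩).2 hg)
  · obtain ⟨hv, hgH⟩ := (hF g).1 g.2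
    exact ⟨_, hψ'v g hv hgH⟩

/-- a level -/
theorem bothP (F₀ : IntermediateField K (AlgebraicClosure K)) [FiniteDimensional K F₀]
    {χ : F₀.fixingSubgroup → ℂ} (hχ : IsCharacter F₀ χ) {M : ℕ} (hM : 0 < M)
    {T : Finset ℕ} (hT : ∀ p ∈ T, p.Prime)
    (N : IntermediateField K (AlgebraicClosure K)) [FiniteDimensional K N] :
    ∃ (L' : IntermediateField K (AlgebraicClosure K)) (_ : FiniteDimensional K L')
      (_ : Normal K L') (f : (F₀.fixingSubgroup ⧸ NN F₀ L') → ℂ)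
      (B B' : Set ((F₀.fixingSubgroup ⧸ NN F₀ L') → ℂ)), IsCh f ∧
        (∀ v, χ v = f (QuotientGroup.mk' (NN F₀ L') v)) ∧
        (∀ k ∈ B, IsCh k ∧ (fun v => k (QuotientGroup.mk' (NN F₀ L') v)) ∈ GenP F₀ M T N) ∧
        (∃ m : ℕ, 0 < m ∧ m • f ∈ AddSubgroup.closure B) ∧
        (∀ k ∈ B', IsCh k ∧ (fun v => k (QuotientGroup.mk' (NN F₀ L') v)) ∈ GenI F₀ T N) ∧
        f ∈ AddSubgroup.closure B' := by
  obtain ⟨L, L', hLfd, hLn, hL'fd, hL'n, hLL', hle, χ', hχ', hχχ', hS2, hcent, hcyc⟩ :=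
    levels' F₀ hχ hM hT N
  have hle' : F₀ ≤ L' := hle.trans hLL'
  refine ⟨L', hL'fd, hL'n, fun g => χ' (proj F₀ hLL' g), _, _,
    isCh_comp (proj F₀ hLL') hχ', hχχ', ?_,
    torI_main (proj F₀ hLL') (SS F₀ L') hS2 hcent
      (fun H => IsCyclic H ∧ ∀ s ∈ SS F₀ L', s ∉ H) (fun H hH h1 => ⟨hH, h1⟩) χ' hχ', ?_,
    int_main (proj F₀ hLL') (SS F₀ L') hS2 hcent χ' hχ'⟩
  · rintro k ⟨H, ψ, h1, rfl⟩
    refine ⟨isCh_ind H ψ, ?_⟩
    obtain ⟨F, ψ', hF₀F, hfd, hψ's, hF, hemp, hinf, hval, hind⟩ :=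
      gen_of_fin' F₀ L L' hLL' hle' H ψ
    refine ⟨F, ψ', hF₀F, hfd, hψ's, ?_, hind⟩
    rcases h1 with ⟨⟨h1, h2⟩, h3⟩ | h1
    · exact Or.inl ⟨hemp h2, (hcyc H F hF).1 h1, (hcyc H F hF).2 (Or.inr h1) ψ' (hinf h3)⟩
    · right
      apply MonoidHom.ext
      intro g
      obtain ⟨h, hh⟩ := hval g
      rw [hh, h1]
      rfl
  · rintro k ⟨H, ψ, h1, rfl⟩
    refine ⟨isCh_ind H ψ, ?_⟩
    obtain ⟨F, ψ', hF₀F, hfd, hψ's, hF, hemp, hinf, hval, hind⟩ :=
      gen_of_fin' F₀ L L' hLL' hle' H ψ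
    refine ⟨F, ψ', hF₀F, hfd, hψ's, ?_, hind⟩
    obtain ⟨h1, h2⟩ := h1
    rcases h2 with ⟨h2, h3⟩ | ⟨k, hk⟩
    · refine Or.inl ⟨hemp h2, ?_⟩
      rcases h3 with h3 | ⟨p, k, hp, hk⟩
      · exact Or.inl ((hcyc H F hF).2 (Or.inl h3) ψ' (hinf h1))
      · refine Or.inr ⟨p, k, hp, fun g => ?_⟩
        obtain ⟨h, hh⟩ := hval g
        rw [hh]
        exact hk h
    · refine Or.inr ⟨k, fun g => ?_⟩
      obtain ⟨h, hh⟩ := hval g
      rw [hh]
      exact hk h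

/-- **The rational induction theorem.** -/
theorem one_place_induction (F₀ : IntermediateField K (AlgebraicClosure K))
    [FiniteDimensional K F₀] {χ : F₀.fixingSubgroup → ℂ} (hχ : IsCharacter F₀ χ) {M : ℕ}
    (hM : 0 < M) {T : Finset ℕ} (hT : ∀ p ∈ T, p.Prime)
    (N : IntermediateField K (AlgebraicClosure K)) [FiniteDimensional K N] :
    ∃ m : ℕ, 0 < m ∧ m • χ ∈ AddSubgroup.closure (GenP F₀ M T N) := by
  obtain ⟨L', hfd, hn, f, B, B', hf, hχf, hB, ⟨m, hm, h1⟩, -, -⟩ := bothP F₀ hχ hM hT N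
  refine ⟨m, hm, ?_⟩
  have h2 := closure_infl (QuotientGroup.mk' (NN F₀ L')) _ (GenP F₀ M T N)
    (fun k hk => (hB k hk).2) h1
  have h3 : m • χ = fun v => (m • f) (QuotientGroup.mk' (NN F₀ L') v) := by
    funext v
    rw [Pi.smul_apply, Pi.smul_apply, hχf]
  rwa [h3]

/-- **The integral induction theorem.** -/
theorem one_place_integral (F₀ : IntermediateField K (AlgebraicClosure K))
    [FiniteDimensional K F₀] {χ : F₀.fixingSubgroup → ℂ} (hχ : IsCharacter F₀ χ)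
    {T : Finset ℕ} (hT : ∀ p ∈ T, p.Prime)
    (N : IntermediateField K (AlgebraicClosure K)) [FiniteDimensional K N] :
    χ ∈ AddSubgroup.closure (GenI F₀ T N) := by
  obtain ⟨L', hfd, hn, f, B, B', hf, hχf, -, -, hB', h1⟩ := bothP F₀ hχ Nat.one_pos hT N
  have h2 := closure_infl (QuotientGroup.mk' (NN F₀ L')) _ (GenI F₀ T N)
    (fun k hk => (hB' k hk).2) h1
  rwa [← funext hχf] at h2

variable {A : Type} [AddCommGroup A]

/-- **Additive inductive functions with values in any abelian group, up to torsion.** -/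
theorem one_place_torsion
    (D : ∀ F : IntermediateField K (AlgebraicClosure K), (F.fixingSubgroup → ℂ) → A)
    (hadd : ∀ F : IntermediateField K (AlgebraicClosure K), FiniteDimensional K F →
      ∀ χ χ' : F.fixingSubgroup → ℂ, IsCharacter F χ → IsCharacter F χ' →
        D F (χ + χ') = D F χ + D F χ')
    (hind : ∀ F F' : IntermediateField K (AlgebraicClosure K), F ≤ F' → FiniteDimensional K F' →
      ∀ χ : F'.fixingSubgroup → ℂ, IsCharacter F' χ → D F (induced F F' χ) = D F' χ)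
    (h1 : ∀ F : IntermediateField K (AlgebraicClosure K), FiniteDimensional K F →
      ∃ m : ℕ, 0 < m ∧ m • D F (fun _ => 1) = 0) {M : ℕ} (hM : 0 < M)
    {T : Finset ℕ} (hT : ∀ p ∈ T, p.Prime)
    (N : IntermediateField K (AlgebraicClosure K)) [FiniteDimensional K N]
    (hD : ∀ F : IntermediateField K (AlgebraicClosure K), FiniteDimensional K F →
      IsEmpty (F →+* ℝ) → M ∣ Module.finrank K F → ∀ ψ : F.fixingSubgroup →* ℂˣ, Smooth F ψ →
        OnePlace T N F ψ → ∃ m : ℕ, 0 < m ∧ m • D F (fun g => ((ψ g : ℂˣ) : ℂ)) = 0)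
    (F₀ : IntermediateField K (AlgebraicClosure K)) (hF₀ : FiniteDimensional K F₀)
    (χ : F₀.fixingSubgroup → ℂ) (hχ : IsCharacter F₀ χ) : ∃ m : ℕ, 0 < m ∧ m • D F₀ χ = 0 := by
  obtain ⟨L', hfd, hn, f, B, B', hf, hχf, hB, ⟨m, hm, h2⟩, -, -⟩ := bothP F₀ hχ hM hT N
  let D' : ((F₀.fixingSubgroup ⧸ NN F₀ L') → ℂ) → A :=
    fun k => D F₀ (fun v => k (QuotientGroup.mk' (NN F₀ L') v))
  let Tt : AddSubgroup A := AddCommGroup.torsion A
  have hadd' : ∀ a b, IsCh a → IsCh b → D' (a + b) = D' a + D' b := fun a b ha hb =>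
    hadd F₀ hF₀ _ _ (isCharacter_of_isCh F₀ L' ha) (isCharacter_of_isCh F₀ L' hb)
  have hTt : ∀ a : A, (∃ m : ℕ, 0 < m ∧ m • a = 0) ↔ (QuotientAddGroup.mk a : A ⧸ Tt) = 0 := by
    intro a
    rw [QuotientAddGroup.eq_zero_iff]
    change _ ↔ IsOfFinAddOrder a
    rw [isOfFinAddOrder_iff_nsmul_eq_zero]
  have h3 : (QuotientAddGroup.mk (D' (m • f)) : A ⧸ Tt) = 0 := by
    refine vanish (A := A ⧸ Tt) B
      (fun k => (QuotientAddGroup.mk (D' k) : A ⧸ Tt)) (fun a b ha hb => ?_) ?_ h2 (hf.nsmul m)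
    · change (QuotientAddGroup.mk (D' (a + b)) : A ⧸ Tt) = _
      rw [hadd' a b ha hb]
      rfl
    · rintro k hk
      obtain ⟨hkc, F, ψ, hF₀F, hfdF, hψs, hψ, hk2⟩ := hB k hk
      refine ⟨hkc, ?_⟩
      change (QuotientAddGroup.mk (D F₀ (fun v => k (QuotientGroup.mk' (NN F₀ L') v))) : A ⧸ Tt) = 0
      rw [hk2, hind F₀ F hF₀F hfdF _ (lin_isCharacter F ψ hψs), ← hTt]
      rcases hψ with ⟨h4, h5, h6⟩ | rfl
      · exact hD F hfdF h4 h5 ψ hψs h6
      · have h7 := h1 F hfdF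
        simpa using h7
  rw [nsmul_D D' hadd' hf, ← hTt] at h3
  obtain ⟨n, hn0, hn1⟩ := h3
  refine ⟨n * m, Nat.mul_pos hn0 hm, ?_⟩
  rw [mul_smul, funext hχf]
  exact hn1

/-- **Additive inductive functions with values in any abelian group, exactly.** -/
theorem one_place_zero
    (D : ∀ F : IntermediateField K (AlgebraicClosure K), (F.fixingSubgroup → ℂ) → A)
    (hadd : ∀ F : IntermediateField K (AlgebraicClosure K), FiniteDimensional K F →
      ∀ χ χ' : F.fixingSubgroup → ℂ, IsCharacter F χ → IsCharacter F χ' →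
        D F (χ + χ') = D F χ + D F χ')
    (hind : ∀ F F' : IntermediateField K (AlgebraicClosure K), F ≤ F' → FiniteDimensional K F' →
      ∀ χ : F'.fixingSubgroup → ℂ, IsCharacter F' χ → D F (induced F F' χ) = D F' χ)
    {T : Finset ℕ} (hT : ∀ p ∈ T, p.Prime)
    (N : IntermediateField K (AlgebraicClosure K)) [FiniteDimensional K N]
    (hD : ∀ F : IntermediateField K (AlgebraicClosure K), FiniteDimensional K F →
      ∀ ψ : F.fixingSubgroup →* ℂˣ, Smooth F ψ →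
        ((IsEmpty (F →+* ℝ) ∧ (OnePlace T N F ψ ∨ ∃ p k : ℕ, p.Prime ∧ ∀ g, ψ g ^ p ^ k = 1)) ∨
          ∃ k : ℕ, ∀ g, ψ g ^ 2 ^ k = 1) → D F (fun g => ((ψ g : ℂˣ) : ℂ)) = 0)
    (F₀ : IntermediateField K (AlgebraicClosure K)) (hF₀ : FiniteDimensional K F₀)
    (χ : F₀.fixingSubgroup → ℂ) (hχ : IsCharacter F₀ χ) : D F₀ χ = 0 := by
  obtain ⟨L', hfd, hn, f, B, B', hf, hχf, -, -, hB', h1⟩ := bothP F₀ hχ Nat.one_pos hT N
  rw [funext hχf]
  refine vanish (A := A) B'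
    (fun k => D F₀ (fun v => k (QuotientGroup.mk' (NN F₀ L') v))) (fun a b ha hb => ?_) ?_ h1 hf
  · exact hadd F₀ hF₀ _ _ (isCharacter_of_isCh F₀ L' ha) (isCharacter_of_isCh F₀ L' hb)
  · rintro k hk
    obtain ⟨hkc, F, ψ, hF₀F, hfdF, hψs, hψ, hk2⟩ := hB' k hk
    refine ⟨hkc, ?_⟩
    change D F₀ (fun v => k (QuotientGroup.mk' (NN F₀ L') v)) = 0
    rw [hk2, hind F₀ F hF₀F hfdF _ (lin_isCharacter F ψ hψs)]
    exact hD F hfdF ψ hψs hψ

end

end Pool.Agent.Q273.SP
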