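import Pool.Agent.Q273.SP.Mal
import Pool.Agent.Q246.RP.Conj

/-!
# A finite level at which two commuting elements of decomposition groups have the same place
-/

set_option autoImplicit false
set_option linter.unusedSectionVars false

namespace Pool.Agent.Q273.SP

open NumberField Pool.Agent.Q246.RP
open scoped Classical

section
variable {K : Type} [Field K] [NumberField K]

/-- the places above a finite set of primes -/
def PL (T : Finset ℕ) : Set (AlgebraicClosure K → ℝ) := {w | ∃ p ∈ T, IsPl p w}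

theorem algebraic_int (x : AlgebraicClosure K) : IsAlgebraic ℤ x := by
  have h1 : Algebra.IsAlgebraic ℚ (AlgebraicClosure K) := Algebra.IsAlgebraic.trans ℚ K _
  exact (IsFractionRing.isAlgebraic_iff ℤ ℚ (AlgebraicClosure K)).2 (h1.isAlgebraic x)

/-- the value of an integer depends only on the prime -/
theorem int_val {p : ℕ} (hp : p.Prime) {d : ℤ} (hd : d ≠ 0) :
    ∃ v : ℕ, ∀ w : AlgebraicClosure K → ℝ, IsPl p w → w (d : AlgebraicClosure K) = (p : ℝ)⁻¹ ^ v := by
  have hf : FiniteMultiplicity (p : ℤ) d := by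
    rw [Int.finiteMultiplicity_iff]
    refine ⟨?_, hd⟩
    rw [Int.natAbs_natCast]
    exact hp.one_lt.ne'
  obtain ⟨c, hc, hpc⟩ := hf.exists_eq_pow_mul_and_not_dvd
  refine ⟨multiplicity (p : ℤ) d, fun w hw => ?_⟩
  have h1 : w (d : AlgebraicClosure K) = w (((p : ℤ) ^ multiplicity (p : ℤ) d * c : ℤ) :
    AlgebraicClosure K) := by rw [← hc]
  rw [h1, Int.cast_mul, Int.cast_pow, Int.cast_natCast, hw.mul, hw.pow hp, hw.prime,
    hw.int_coprime hp hpc, mul_one]

theorem bounded {p : ℕ} (hp : p.Prime) (x : AlgebraicClosure K) :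
    ∃ C : ℝ, ∀ w : AlgebraicClosure K → ℝ, IsPl p w → w x ≤ C := by
  obtain ⟨d, hd, hint⟩ := (algebraic_int x).exists_integral_multiple
  obtain ⟨v, hv⟩ := int_val (K := K) hp hd
  refine ⟨((p : ℝ)⁻¹ ^ v)⁻¹, fun w hw => ?_⟩
  have h1 := hw.integral_le hp hint
  have hpos : 0 < (p : ℝ)⁻¹ ^ v := pow_pos (inv_pos.2 (by exact_mod_cast hp.pos)) v
  rw [zsmul_eq_mul, hw.mul, hv w hw] at h1
  rwa [← one_div, le_div_iff₀ hpos, mul_comm]

theorem isCompact_one {p : ℕ} (hp : p.Prime) :
    IsCompact {w : AlgebraicClosure K → ℝ | IsPl p w} := by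
  choose C hC using fun x : AlgebraicClosure K => bounded hp x
  have h1 : IsCompact (Set.pi Set.univ fun x : AlgebraicClosure K => Set.Icc (0 : ℝ) (C x)) :=
    isCompact_univ_pi fun x => isCompact_Icc
  refine h1.of_isClosed_subset ?_ fun w hw x _ => ⟨hw.nonneg x, hC x w hw⟩
  have h2 : {w : AlgebraicClosure K → ℝ | IsPl p w} =
      (⋂ x, {w | 0 ≤ w x}) ∩ {w | w 0 = 0} ∩ (⋂ x, ⋂ y, {w | w (x * y) = w x * w y}) ∩
        (⋂ x, ⋂ y, {w | w (x + y) ≤ max (w x) (w y)}) ∩ {w | w (p : AlgebraicClosure K) = (p : ℝ)⁻¹} := by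
    ext w
    simp only [Set.mem_ofPred_eq, Set.mem_inter_iff, Set.mem_iInter]
    exact ⟨fun h => ⟨⟨⟨⟨h.1, h.2⟩, h.3⟩, h.4⟩, h.5⟩, fun h => ⟨h.1.1.1.1, h.1.1.1.2, h.1.1.2, h.1.2, h.2⟩⟩
  rw [h2]
  refine ((((isClosed_iInter fun x => ?_).inter ?_).inter (isClosed_iInter fun x =>
    isClosed_iInter fun y => ?_)).inter (isClosed_iInter fun x =>
    isClosed_iInter fun y => ?_)).inter ?_
  · exact isClosed_le continuous_const (continuous_apply x)
  · exact isClosed_eq (continuous_apply _) continuous_const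
  · exact isClosed_eq (continuous_apply _) ((continuous_apply x).mul (continuous_apply y))
  · exact isClosed_le (continuous_apply _) ((continuous_apply x).max (continuous_apply y))
  · exact isClosed_eq (continuous_apply _) continuous_const

theorem isCompact_pl {T : Finset ℕ} (hT : ∀ p ∈ T, p.Prime) :
    IsCompact (PL T : Set (AlgebraicClosure K → ℝ)) := by
  have h1 : (PL T : Set (AlgebraicClosure K → ℝ)) = ⋃ p ∈ T, {w | IsPl p w} := by
    ext w
    simp [PL]
  rw [h1]
  exact T.isCompact_biUnion fun p hp => isCompact_one (hT p hp)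

/-- composition of a place with an automorphism -/
theorem IsPl.comp {p : ℕ} {w : AlgebraicClosure K → ℝ} (hw : IsPl p w)
    (g : Gal(AlgebraicClosure K/K)) : IsPl p (fun x => w (g x)) where
  nonneg x := hw.nonneg _
  zero := by rw [map_zero, hw.zero]
  mul x y := by rw [map_mul, hw.mul]
  add x y := by rw [map_add]; exact hw.add _ _
  prime := by rw [map_natCast]; exact hw.prime

/-- two nontrivial elements of decomposition groups which commute with a third nontrivial element
have the same place -/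
theorem same_place {T : Finset ℕ} (hT : ∀ p ∈ T, p.Prime) {w u : AlgebraicClosure K → ℝ}
    (hw : w ∈ PL T) (hu : u ∈ PL T) {g h k : Gal(AlgebraicClosure K/K)} (hgk : g * k = k * g)
    (hhk : h * k = k * h) (hgw : ∀ x, w (g x) = w x) (hhu : ∀ x, u (h x) = u x) (hg : g ≠ 1)
    (hh : h ≠ 1) (hk : k ≠ 1) : w = u := by
  obtain ⟨p, hp, hw⟩ := hw
  obtain ⟨q, hq, hu⟩ := hu
  have hp := hT p hp
  have hq := hT q hq
  have h1 : (fun x => w (k x)) = w := by
    by_contra hne
    refine hg (malnormal hp hp (hw.comp k) hw hne g (fun x => ?_) hgw)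
    change w (k (g x)) = w (k x)
    have h2 : k (g x) = g (k x) := (DFunLike.congr_fun hgk x).symm
    rw [h2, hgw]
  have h2 : (fun x => u (k x)) = u := by
    by_contra hne
    refine hh (malnormal hq hq (hu.comp k) hu hne h (fun x => ?_) hhu)
    change u (k (h x)) = u (k x)
    have h2 : k (h x) = h (k x) := (DFunLike.congr_fun hhk x).symm
    rw [h2, hhu]
  by_contra hne
  exact hk (malnormal hp hq hw hu hne k (fun x => congrFun h1 x) (fun x => congrFun h2 x))

/-- the closed form of disagreement at an integral element -/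
theorem gap_closed {T : Finset ℕ} (hT : ∀ p ∈ T, p.Prime) {y : AlgebraicClosure K}
    (hy : IsIntegral ℤ y) : ∃ n : ℕ, ∀ w : AlgebraicClosure K → ℝ, w ∈ PL T →
      (w y < 1 ↔ w y ^ n ≤ 2⁻¹) := by
  obtain ⟨P, hP, hPy⟩ := hy
  refine ⟨P.natDegree, fun w hw => ?_⟩
  obtain ⟨p, hp, hw⟩ := hw
  have hp := hT p hp
  constructor
  · intro h
    refine (hw.gap hp hP hPy h).trans ?_
    exact inv_anti₀ two_pos (by exact_mod_cast hp.two_le)
  · intro h
    by_contra hcon
    push Not at hcon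
    have h1 := one_le_pow₀ hcon (n := P.natDegree)
    have h2 := h1.trans h
    norm_num at h2

/-- **The level.** -/
theorem level (L : IntermediateField K (AlgebraicClosure K)) [FiniteDimensional K L]
    {T : Finset ℕ} (hT : ∀ p ∈ T, p.Prime) (Y : Finset (AlgebraicClosure K))
    (hY : ∀ y ∈ Y, IsIntegral ℤ y) :
    ∃ L' : IntermediateField K (AlgebraicClosure K), FiniteDimensional K L' ∧ Normal K L' ∧
      L ≤ L' ∧ ∀ (g h k : Gal(AlgebraicClosure K/K)) (w u : AlgebraicClosure K → ℝ),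
        w ∈ PL T → u ∈ PL T → (∀ x ∈ L', g (k x) = k (g x)) → (∀ x ∈ L', h (k x) = k (h x)) →
        (∀ x, w (g x) = w x) → (∀ x, u (h x) = u x) → (¬ ∀ x ∈ L, g x = x) →
        (¬ ∀ x ∈ L, h x = x) → (¬ ∀ x ∈ L, k x = x) →
        ∀ y ∈ Y, (w y < 1 ↔ u y < 1) := by
  by_contra hcon
  push Not at hcon
  choose! n hn using fun (y : AlgebraicClosure K) (hy : y ∈ Y) => gap_closed (K := K) hT (hY y hy)
  let I : Type := {L' : IntermediateField K (AlgebraicClosure K) //
    FiniteDimensional K L' ∧ Normal K L' ∧ L ≤ L'}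
  let W : Type := Gal(AlgebraicClosure K/K) × Gal(AlgebraicClosure K/K) ×
    Gal(AlgebraicClosure K/K) × (AlgebraicClosure K → ℝ) × (AlgebraicClosure K → ℝ)
  let C : Set W := Set.univ ×ˢ Set.univ ×ˢ Set.univ ×ˢ PL T ×ˢ PL T
  have hC : IsCompact C := isCompact_univ.prod (isCompact_univ.prod (isCompact_univ.prod
    ((isCompact_pl hT).prod (isCompact_pl hT))))
  have hopL : IsOpen (L.fixingSubgroup : Set (Gal(AlgebraicClosure K/K))) :=
    IntermediateField.fixingSubgroup_isOpen L
  let A : Set W := (⋂ x, {z : W | z.2.2.2.1 (z.1 x) = z.2.2.2.1 x}) ∩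
    (⋂ x, {z : W | z.2.2.2.2 (z.2.1 x) = z.2.2.2.2 x}) ∩ {z : W | ¬ ∀ x ∈ L, z.1 x = x} ∩
    {z : W | ¬ ∀ x ∈ L, z.2.1 x = x} ∩ {z : W | ¬ ∀ x ∈ L, z.2.2.1 x = x} ∩
    ⋃ y ∈ Y, ({z : W | z.2.2.2.1 y ^ n y ≤ 2⁻¹} ∩ {z : W | 1 ≤ z.2.2.2.2 y}) ∪
      ({z : W | 1 ≤ z.2.2.2.1 y} ∩ {z : W | z.2.2.2.2 y ^ n y ≤ 2⁻¹})
  -- evaluation at a moving point is continuous on closed sets
  have hev : ∀ (f : W → Gal(AlgebraicClosure K/K)) (v : W → (AlgebraicClosure K → ℝ)),
      Continuous f → Continuous v → ∀ x : AlgebraicClosure K,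
        IsClosed {z : W | v z (f z x) = v z x} := by
    intro f v hf hv x
    have hc : Continuous fun z : W => v z (f z x) := by
      rw [continuous_iff_continuousAt]
      intro z
      have h1 : {z' : W | f z' x = f z x} ∈ nhds z :=
        ((isClopen_eval x fun y => y = f z x).2.preimage hf).mem_nhds rfl
      have h2 : (fun z' : W => v z' (f z' x)) =ᶠ[nhds z] fun z' : W => v z' (f z x) := by
        filter_upwards [h1] with z' hz'
        have h3 : f z' x = f z x := hz'
        rw [h3]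
      exact ContinuousAt.congr (((continuous_apply (f z x)).comp hv).continuousAt) h2.symm
    exact isClosed_eq hc ((continuous_apply x).comp hv)
  have hfix : ∀ f : W → Gal(AlgebraicClosure K/K), Continuous f →
      IsClosed {z : W | ¬ ∀ x ∈ L, f z x = x} := by
    intro f hf
    refine ⟨?_⟩
    have h2 : {z : W | ¬ ∀ x ∈ L, f z x = x}ᶜ = f ⁻¹'
        (L.fixingSubgroup : Set (Gal(AlgebraicClosure K/K))) := by
      ext t
      simp only [Set.mem_compl_iff, Set.mem_ofPred_eq, not_not]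
      exact (IntermediateField.mem_fixingSubgroup_iff _ _).symm
    rw [h2]
    exact hopL.preimage hf
  have c1 : Continuous fun z : W => z.1 := continuous_fst
  have c2 : Continuous fun z : W => z.2.1 := continuous_fst.comp continuous_snd
  have c5 : Continuous fun z : W => z.2.2.1 := continuous_fst.comp (continuous_snd.comp continuous_snd)
  have c3 : Continuous fun z : W => z.2.2.2.1 :=
    continuous_fst.comp (continuous_snd.comp (continuous_snd.comp continuous_snd))
  have c4 : Continuous fun z : W => z.2.2.2.2 :=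
    continuous_snd.comp (continuous_snd.comp (continuous_snd.comp continuous_snd))
  have hA : IsClosed A := by
    refine (((((isClosed_iInter fun x => hev _ _ c1 c3 x).inter
      (isClosed_iInter fun x => hev _ _ c2 c4 x)).inter (hfix _ c1)).inter (hfix _ c2)).inter
      (hfix _ c5)).inter ?_
    refine Set.Finite.isClosed_biUnion Y.finite_toSet fun y _ => ?_
    refine IsClosed.union (IsClosed.inter ?_ ?_) (IsClosed.inter ?_ ?_)
    · exact isClosed_le (((continuous_apply y).comp c3).pow _) continuous_const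
    · exact isClosed_le continuous_const ((continuous_apply y).comp c4)
    · exact isClosed_le continuous_const ((continuous_apply y).comp c3)
    · exact isClosed_le (((continuous_apply y).comp c4).pow _) continuous_const
  let Z : I → Set W := fun L' => C ∩ (A ∩ ⋂ x : L'.1,
    ({z : W | z.1 (z.2.2.1 (x : AlgebraicClosure K)) = z.2.2.1 (z.1 (x : AlgebraicClosure K))} ∩
      {z : W | z.2.1 (z.2.2.1 (x : AlgebraicClosure K)) =
        z.2.2.1 (z.2.1 (x : AlgebraicClosure K))}))
  have hcomm : ∀ (f : W → Gal(AlgebraicClosure K/K)), Continuous f → ∀ x : AlgebraicClosure K,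
      IsClosed {z : W | f z (z.2.2.1 x) = z.2.2.1 (f z x)} := by
    intro f hf x
    have h2 : {z : W | f z (z.2.2.1 x) = z.2.2.1 (f z x)} =
        (fun z : W => (z.2.2.1 * f z)⁻¹ * (f z * z.2.2.1)) ⁻¹'
        {τ : Gal(AlgebraicClosure K/K) | τ x = x} := by
      ext z
      rw [Set.mem_preimage, Set.mem_ofPred_eq, Set.mem_ofPred_eq]
      change _ ↔ (z.2.2.1 * f z).symm (f z (z.2.2.1 x)) = x
      rw [AlgEquiv.symm_apply_eq]
      rfl
    rw [h2]
    exact (isClopen_eval x fun y => y = x).1.preimage (((c5.mul hf).inv).mul (hf.mul c5))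
  have hZc : ∀ i, IsClosed (A ∩ ⋂ x : (i : I).1,
      ({z : W | z.1 (z.2.2.1 (x : AlgebraicClosure K)) = z.2.2.1 (z.1 (x : AlgebraicClosure K))} ∩
        {z : W | z.2.1 (z.2.2.1 (x : AlgebraicClosure K)) =
          z.2.2.1 (z.2.1 (x : AlgebraicClosure K))})) :=
    fun i => hA.inter (isClosed_iInter fun x => (hcomm _ c1 x).inter (hcomm _ c2 x))
  have hfdN : FiniteDimensional K (IntermediateField.normalClosure K L (AlgebraicClosure K)) :=
    inferInstance
  have hne : Nonempty I := ⟨⟨IntermediateField.normalClosure K L (AlgebraicClosure K), hfdN,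
    inferInstance, IntermediateField.le_normalClosure L⟩⟩
  have hZn : ∀ i, (Z i).Nonempty := by
    intro i
    obtain ⟨g, h, k, w, u, hw, hu, hgk, hhk, hgw, hhu, hg, hh, hk, y, hy, hwu⟩ :=
      hcon i.1 i.2.1 i.2.2.1 i.2.2.2
    refine ⟨(g, h, k, w, u), ⟨trivial, trivial, trivial, hw, hu⟩,
      ⟨⟨⟨⟨⟨?_, ?_⟩, ?_⟩, ?_⟩, ?_⟩, ?_⟩, ?_⟩
    · rw [Set.mem_iInter]; exact hgw
    · rw [Set.mem_iInter]; exact hhu
    · obtain ⟨x, hx, hx'⟩ := hg
      exact fun h => hx' (h x hx)
    · obtain ⟨x, hx, hx'⟩ := hh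
      exact fun h => hx' (h x hx)
    · obtain ⟨x, hx, hx'⟩ := hk
      exact fun h => hx' (h x hx)
    · refine Set.mem_biUnion hy ?_
      have h1w := hn y hy w hw
      have h1u := hn y hy u hu
      rcases hwu with ⟨h2, h3⟩ | ⟨h2, h3⟩
      · exact Or.inl ⟨h1w.1 h2, h3⟩
      · exact Or.inr ⟨h2, h1u.1 h3⟩
    · rw [Set.mem_iInter]
      exact fun x => ⟨hgk x x.2, hhk x x.2⟩
  have hdir : Directed (· ⊇ ·) Z := by
    intro i j
    have h1 := i.2.1
    have h2 := j.2.1
    have h3 := i.2.2.1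
    have h4 := j.2.2.1
    refine ⟨⟨i.1 ⊔ j.1, IntermediateField.finiteDimensional_sup _ _,
      IntermediateField.normal_sup K (AlgebraicClosure K) i.1 j.1,
      i.2.2.2.trans le_sup_left⟩, ?_, ?_⟩
    · rintro z ⟨hz1, hz2, hz3⟩
      refine ⟨hz1, hz2, ?_⟩
      rw [Set.mem_iInter] at hz3 ⊢
      exact fun x => hz3 ⟨x, (le_sup_left : i.1 ≤ i.1 ⊔ j.1) x.2⟩
    · rintro z ⟨hz1, hz2, hz3⟩
      refine ⟨hz1, hz2, ?_⟩
      rw [Set.mem_iInter] at hz3 ⊢
      exact fun x => hz3 ⟨x, (le_sup_right : j.1 ≤ i.1 ⊔ j.1) x.2⟩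
  have hC' : IsClosed C := isClosed_univ.prod (isClosed_univ.prod (isClosed_univ.prod
    ((isCompact_pl hT).isClosed.prod (isCompact_pl hT).isClosed)))
  obtain ⟨⟨g, h, k, w, u⟩, hz⟩ := IsCompact.nonempty_iInter_of_directed_nonempty_isCompact_isClosed Z
    hdir hZn (fun i => hC.inter_right (hZc i)) (fun i => hC'.inter (hZc i))
  rw [Set.mem_iInter] at hz
  have hcomm' : g * k = k * g ∧ h * k = k * h := by
    have key : ∀ x, g (k x) = k (g x) ∧ h (k x) = k (h x) := by
      intro x
      have hfd : FiniteDimensional K (IntermediateField.adjoin K {x}) :=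
        IntermediateField.adjoin.finiteDimensional (Algebra.IsIntegral.isIntegral x)
      let S : IntermediateField K (AlgebraicClosure K) := L ⊔ IntermediateField.adjoin K {x}
      let M : IntermediateField K (AlgebraicClosure K) :=
        IntermediateField.normalClosure K S (AlgebraicClosure K)
      have hfd2 : FiniteDimensional K S := IntermediateField.finiteDimensional_sup _ _
      have hM : S ≤ M := IntermediateField.le_normalClosure S
      have hLM : L ≤ M := (le_sup_left : L ≤ S).trans hM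
      have h1 := (hz ⟨M, inferInstance, inferInstance, hLM⟩).2.2
      rw [Set.mem_iInter] at h1
      exact h1 ⟨x, hM ((le_sup_right : IntermediateField.adjoin K {x} ≤ S)
        (IntermediateField.mem_adjoin_simple_self K x))⟩
    exact ⟨AlgEquiv.ext fun x => (key x).1, AlgEquiv.ext fun x => (key x).2⟩
  obtain ⟨i⟩ := hne
  obtain ⟨⟨-, -, -, hw, hu⟩, ⟨⟨⟨⟨⟨h1, h2⟩, h3⟩, h4⟩, h4'⟩, h5⟩, -⟩ := hz i
  rw [Set.mem_iInter] at h1 h2
  have hg : g ≠ 1 := by
    rintro rfl
    exact h3 fun x _ => rfl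
  have hh : h ≠ 1 := by
    rintro rfl
    exact h4 fun x _ => rfl
  have hk : k ≠ 1 := by
    rintro rfl
    exact h4' fun x _ => rfl
  have hwu : w = u := same_place hT hw hu hcomm'.1 hcomm'.2 h1 h2 hg hh hk
  obtain ⟨y, hy, h6⟩ := Set.mem_iUnion₂.1 h5
  have key : ∀ v : AlgebraicClosure K → ℝ, v ∈ PL T → v y ^ n y ≤ 2⁻¹ → 1 ≤ v y → False := by
    intro v hv h7 h8
    exact absurd ((hn y hy v hv).2 h7) (not_lt.2 h8)
  rcases h6 with ⟨h7, h8⟩ | ⟨h7, h8⟩
  · change w y ^ n y ≤ 2⁻¹ at h7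
    change 1 ≤ u y at h8
    rw [← hwu] at h8
    exact key w hw h7 h8
  · change 1 ≤ w y at h7
    change u y ^ n y ≤ 2⁻¹ at h8
    rw [← hwu] at h8
    exact key w hw h8 h7

end

end Pool.Agent.Q273.SP
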