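import Mathlib
import Pool.Agent.Results.MP_7aad9f_nt.MetricLaw

/-!
# Products of small spread: radicals of the solutions of `A X + B Y = C Z`
-/

set_option autoImplicit false

namespace Q273.SP

open Pool.Agent.Results.MP_7aad9f_nt.MetricLaw (R c abc)

/-- `X` is a product of `n` positive integers of spread `s` whose least factor `b` satisfies
`s ^ 2 ≤ M b` -/
def HasRep (M : ℝ) (X n s : ℕ) : Prop :=
  ∃ (b : ℕ) (x : Fin n → ℕ), 0 < b ∧ (∀ i, b ≤ x i ∧ x i ≤ b + s) ∧ (∃ i, x i = b) ∧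
    (∃ i, x i = b + s) ∧ ∏ i, x i = X ∧ (s : ℝ) ^ 2 ≤ M * b

/-- the solutions of the problem -/
def Sol (A B C : ℕ) (F Q M : ℝ) : Set (ℕ × ℕ × ℕ) :=
  {t | A * t.1 + B * t.2.1 = C * t.2.2 ∧
    (Nat.gcd t.1 t.2.1 : ℝ) ≤ Q * R (Nat.gcd t.1 t.2.1) ∧
    ∃ n1 s1 n2 s2 n3 s3 : ℕ, HasRep M t.1 n1 s1 ∧ HasRep M t.2.1 n2 s2 ∧ HasRep M t.2.2 n3 s3 ∧
      ((s1 : ℝ) + 1) / n1 + ((s2 : ℝ) + 1) / n2 + ((s3 : ℝ) + 1) / n3 ≤ F}

lemma R_pos (m : ℕ) : 0 < R m := Finset.prod_pos fun _ hp => (Nat.prime_of_mem_primeFactors hp).pos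

lemma logR (m : ℕ) : Real.log (R m) = ∑ p ∈ m.primeFactors, Real.log p := by
  unfold R
  push_cast
  rw [Real.log_prod]
  intro p hp
  exact_mod_cast (Nat.prime_of_mem_primeFactors hp).ne_zero

lemma R_le {m : ℕ} (hm : m ≠ 0) : R m ≤ m := Nat.le_of_dvd (Nat.pos_of_ne_zero hm) m.prod_primeFactors_dvd

lemma R_mono {m k : ℕ} (h : m.primeFactors ⊆ k.primeFactors) : R m ≤ R k :=
  Finset.prod_le_prod_of_subset_of_one_le' h fun _ hp _ => (Nat.prime_of_mem_primeFactors hp).one_le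

lemma HasRep.pos {M : ℝ} {X n s : ℕ} (h : HasRep M X n s) : 0 < X := by
  obtain ⟨b, x, hb, hx, _, _, rfl, _⟩ := h
  exact Finset.prod_pos fun i _ => lt_of_lt_of_le hb (hx i).1

lemma HasRep.M_nonneg {M : ℝ} {X n s : ℕ} (h : HasRep M X n s) : 0 ≤ M := by
  obtain ⟨b, x, hb, _, _, _, _, hM⟩ := h
  have hb' : (0 : ℝ) < b := by exact_mod_cast hb
  by_contra hneg
  push Not at hneg
  nlinarith [sq_nonneg (s : ℝ)]

lemma HasRep.n_pos {M : ℝ} {X n s : ℕ} (h : HasRep M X n s) : 0 < n := by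
  obtain ⟨b, x, _, _, ⟨i, _⟩, _⟩ := h
  exact i.pos

/-- the radical of a product of small spread -/
lemma HasRep.rad_le {M : ℝ} {X n s : ℕ} (h : HasRep M X n s) :
    Real.log (R X) ≤ (((s : ℝ) + 1) / n) * Real.log X + 2 * M := by
  have hM0 := h.M_nonneg
  have hn := h.n_pos
  have hX := h.pos
  obtain ⟨b, x, hb, hx, _, _, rfl, hM⟩ := h
  have hb' : (0 : ℝ) < b := by exact_mod_cast hb
  have hs0 : (0 : ℝ) ≤ s := Nat.cast_nonneg s
  have hn' : (0 : ℝ) < n := by exact_mod_cast hn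
  set P : ℕ := ∏ k ∈ Finset.Icc b (b + s), k with hP
  have hP0 : P ≠ 0 := Finset.prod_ne_zero_iff.2 fun k hk => by
    have := (Finset.mem_Icc.1 hk).1
    omega
  have h1 : (∏ i, x i).primeFactors ⊆ P.primeFactors := by
    intro p hp
    have hpp := Nat.prime_of_mem_primeFactors hp
    obtain ⟨i, _, hi⟩ := (hpp.prime.dvd_finsetProd_iff _).1 (Nat.dvd_of_mem_primeFactors hp)
    refine Nat.mem_primeFactors.2 ⟨hpp, hi.trans ?_, hP0⟩
    exact Finset.dvd_prod_of_mem (fun k => k) (Finset.mem_Icc.2 (hx i))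
  have h2 : R (∏ i, x i) ≤ (b + s) ^ (s + 1) := by
    refine (R_mono h1).trans ((R_le hP0).trans ?_)
    have h3 : P ≤ ∏ _k ∈ Finset.Icc b (b + s), (b + s) :=
      Finset.prod_le_prod' fun k hk => (Finset.mem_Icc.1 hk).2
    rw [Finset.prod_const, Nat.card_Icc] at h3
    have e : b + s + 1 - b = s + 1 := by omega
    rwa [e] at h3
  have h3 : Real.log (R (∏ i, x i)) ≤ ((s : ℝ) + 1) * Real.log ((b : ℝ) + s) := by
    have h4 : (R (∏ i, x i) : ℝ) ≤ ((b : ℝ) + s) ^ (s + 1) := by exact_mod_cast h2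
    have h5 := Real.log_le_log (by exact_mod_cast R_pos _) h4
    rw [Real.log_pow] at h5
    push_cast at h5
    exact h5
  have h4 : Real.log ((b : ℝ) + s) ≤ Real.log b + s / b := by
    have e : (b : ℝ) + s = b * (1 + s / b) := by field_simp
    rw [e, Real.log_mul hb'.ne' (by positivity)]
    have := Real.log_le_sub_one_of_pos (show (0 : ℝ) < 1 + s / b by positivity)
    linarith
  have h5 : (n : ℝ) * Real.log b ≤ Real.log ((∏ i, x i : ℕ) : ℝ) := by
    have h6 : b ^ n ≤ ∏ i, x i := by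
      have h7 : ∏ _i : Fin n, b ≤ ∏ i, x i := Finset.prod_le_prod' fun i _ => (hx i).1
      rwa [Finset.prod_const, Finset.card_univ, Fintype.card_fin] at h7
    have h7 : ((b : ℝ)) ^ n ≤ ((∏ i, x i : ℕ) : ℝ) := by exact_mod_cast h6
    have h8 := Real.log_le_log (by positivity) h7
    rwa [Real.log_pow] at h8
  have h6 : ((s : ℝ) + 1) * (s / b) ≤ 2 * M := by
    rcases Nat.eq_zero_or_pos s with h | h
    · rw [h]
      simp only [Nat.cast_zero, zero_div, mul_zero]
      linarith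
    · have h7 : (1 : ℝ) ≤ s := by exact_mod_cast h
      have h8 : (s : ℝ) ^ 2 / b ≤ M := by rwa [div_le_iff₀ hb']
      have h9 : ((s : ℝ) + 1) * (s / b) ≤ 2 * ((s : ℝ) ^ 2 / b) := by
        rw [← mul_div_assoc, ← mul_div_assoc]
        refine div_le_div_of_nonneg_right ?_ hb'.le
        nlinarith
      linarith
  have h7 : ((s : ℝ) + 1) * Real.log b ≤ (((s : ℝ) + 1) / n) * Real.log ((∏ i, x i : ℕ) : ℝ) := by
    have h8 := mul_le_mul_of_nonneg_left h5 (show 0 ≤ ((s : ℝ) + 1) / n by positivity)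
    refine le_trans (le_of_eq ?_) h8
    field_simp
  have h8 : ((s : ℝ) + 1) * Real.log ((b : ℝ) + s) ≤ ((s : ℝ) + 1) * (Real.log b + s / b) :=
    mul_le_mul_of_nonneg_left h4 (by positivity)
  linarith

/-- the ratio `A X / (C Z)` -/
def ratio (A C : ℕ) (t : ℕ × ℕ × ℕ) : ℚ := ((A * t.1 : ℕ) : ℚ) / ((C * t.2.2 : ℕ) : ℚ)

/-- numerator and denominator of the ratio -/
lemma exists_g {A B C X Y Z : ℕ} (hA : 0 < A) (hB : 0 < B) (hC : 0 < C) (hX : 0 < X) (hY : 0 < Y)
    (hZ : 0 < Z) (h : A * X + B * Y = C * Z) :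
    ∃ a q g : ℕ, 0 < a ∧ a < q ∧ 0 < g ∧ (ratio A C (X, Y, Z)).num = a ∧
      (ratio A C (X, Y, Z)).den = q ∧ A * X = a * g ∧ C * Z = q * g ∧ B * Y = (q - a) * g := by
  set r := ratio A C (X, Y, Z) with hr
  have hAX : 0 < A * X := Nat.mul_pos hA hX
  have hBY : 0 < B * Y := Nat.mul_pos hB hY
  have hCZ : 0 < C * Z := Nat.mul_pos hC hZ
  have hrdef : r = ((A * X : ℕ) : ℚ) / ((C * Z : ℕ) : ℚ) := rfl
  have hr0 : 0 < r := by
    rw [hrdef]
    have h1 : (0 : ℚ) < ((A * X : ℕ) : ℚ) := by exact_mod_cast hAX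
    have h2 : (0 : ℚ) < ((C * Z : ℕ) : ℚ) := by exact_mod_cast hCZ
    exact div_pos h1 h2
  have hnum : 0 < r.num := Rat.num_pos.2 hr0
  obtain ⟨a, ha⟩ := Int.eq_ofNat_of_zero_le hnum.le
  have ha0 : 0 < a := by
    have : (0 : ℤ) < (a : ℤ) := by rw [← ha]; exact hnum
    exact_mod_cast this
  -- cross multiplication
  have hcross : a * (C * Z) = r.den * (A * X) := by
    have h1 : (r.num : ℚ) / r.den = ((A * X : ℕ) : ℚ) / ((C * Z : ℕ) : ℚ) := by
      rw [Rat.num_div_den]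
      exact hrdef
    have hden : (r.den : ℚ) ≠ 0 := by exact_mod_cast r.den_ne_zero
    have hcz : ((C * Z : ℕ) : ℚ) ≠ 0 := by exact_mod_cast hCZ.ne'
    rw [div_eq_div_iff hden hcz, ha] at h1
    have h2 : ((a : ℤ) : ℚ) = (a : ℚ) := by norm_cast
    rw [h2] at h1
    have h3 : ((a * (C * Z) : ℕ) : ℚ) = ((r.den * (A * X) : ℕ) : ℚ) := by
      push_cast
      push_cast at h1
      linarith
    exact_mod_cast h3
  have hcop : Nat.Coprime a r.den := by
    have := r.reduced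
    rw [ha] at this
    exact this
  have hdvd : a ∣ A * X := by
    have h1 : a ∣ r.den * (A * X) := ⟨C * Z, hcross.symm⟩
    exact hcop.dvd_of_dvd_mul_left h1
  obtain ⟨g, hg⟩ := hdvd
  have hg0 : 0 < g := by
    rcases Nat.eq_zero_or_pos g with h0 | h0
    · rw [h0, mul_zero] at hg
      omega
    · exact h0
  have hq : C * Z = r.den * g := by
    have h1 : a * (C * Z) = a * (r.den * g) := by
      rw [hcross, hg]
      ring
    exact Nat.eq_of_mul_eq_mul_left ha0 h1
  have hlt : a < r.den := by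
    have h1 : a * g < r.den * g := by
      rw [← hg, ← hq]
      omega
    exact lt_of_mul_lt_mul_right h1 (Nat.zero_le g)
  refine ⟨a, r.den, g, ha0, hlt, hg0, ha, rfl, hg, hq, ?_⟩
  rw [Nat.sub_mul, ← hg, ← hq]
  omega

/-- weights of primes -/
lemma sum_ite {m : ℕ} (hm : m ≠ 0) (U : Finset ℕ) (hU : ∀ p ∈ U, p.Prime) (h : m.primeFactors ⊆ U) :
    Real.log (R m) = ∑ p ∈ U, if p ∣ m then Real.log p else 0 := by
  rw [logR, ← Finset.sum_filter]
  refine Finset.sum_congr ?_ fun _ _ => rfl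
  ext p
  rw [Finset.mem_filter]
  constructor
  · intro hp
    exact ⟨h hp, Nat.dvd_of_mem_primeFactors hp⟩
  · rintro ⟨h1, h2⟩
    exact Nat.mem_primeFactors.2 ⟨hU p h1, h2, hm⟩

/-- the radical of the abc triple of a solution -/
lemma rad_bound {A B C X Y Z N : ℕ} (hA : 0 < A) (hB : 0 < B) (hC : 0 < C) (hX : 0 < X)
    (hY : 0 < Y) (hZ : 0 < Z) (h : A * X + B * Y = C * Z) (hN : N ≠ 0)
    (hdvd : ∀ p : ℕ, p.Prime → p ∣ N → p ∣ A * B * C ∨ p ∣ X ∨ p ∣ Y ∨ p ∣ Z) :
    Real.log (R N) + 2 * Real.log (R (Nat.gcd X Y)) ≤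
      3 * Real.log (R (A * B * C)) + Real.log (R X) + Real.log (R Y) + Real.log (R Z) := by
  classical
  have hG : Nat.gcd X Y ≠ 0 := (Nat.gcd_pos_of_pos_left Y hX).ne'
  have hT : A * B * C ≠ 0 := by positivity
  set U : Finset ℕ := N.primeFactors ∪ (Nat.gcd X Y).primeFactors ∪ (A * B * C).primeFactors ∪
    X.primeFactors ∪ Y.primeFactors ∪ Z.primeFactors with hU
  have hprime : ∀ p ∈ U, p.Prime := by
    intro p hp
    simp only [hU, Finset.mem_union] at hp
    rcases hp with ((((h | h) | h) | h) | h) | h <;> exact Nat.prime_of_mem_primeFactors h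
  rw [sum_ite hN U hprime (by intro p hp; simp only [hU, Finset.mem_union]; tauto),
    sum_ite hG U hprime (by intro p hp; simp only [hU, Finset.mem_union]; tauto),
    sum_ite hT U hprime (by intro p hp; simp only [hU, Finset.mem_union]; tauto),
    sum_ite hX.ne' U hprime (by intro p hp; simp only [hU, Finset.mem_union]; tauto),
    sum_ite hY.ne' U hprime (by intro p hp; simp only [hU, Finset.mem_union]; tauto),
    sum_ite hZ.ne' U hprime (by intro p hp; simp only [hU, Finset.mem_union]; tauto),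
    Finset.mul_sum, Finset.mul_sum, ← Finset.sum_add_distrib, ← Finset.sum_add_distrib,
    ← Finset.sum_add_distrib, ← Finset.sum_add_distrib]
  refine Finset.sum_le_sum fun p hp => ?_
  have hpp := hprime p hp
  have hlog : 0 ≤ Real.log p := Real.log_nonneg (by exact_mod_cast hpp.one_le)
  by_cases h1 : p ∣ A * B * C
  · rw [if_pos h1]
    split_ifs <;> linarith
  · rw [if_neg h1]
    have hpC : ¬ p ∣ C := fun h => h1 (h.mul_left _)
    by_cases h2 : p ∣ Nat.gcd X Y
    · have h3 : p ∣ X := h2.trans (Nat.gcd_dvd_left _ _)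
      have h4 : p ∣ Y := h2.trans (Nat.gcd_dvd_right _ _)
      have h5 : p ∣ Z := by
        have h6 : p ∣ C * Z := by
          rw [← h]
          exact dvd_add (h3.mul_left _) (h4.mul_left _)
        rcases (Nat.Prime.dvd_mul hpp).1 h6 with h7 | h7
        · exact absurd h7 hpC
        · exact h7
      rw [if_pos h2, if_pos h3, if_pos h4, if_pos h5]
      split_ifs <;> linarith
    · rw [if_neg h2]
      by_cases h3 : p ∣ N
      · rw [if_pos h3]
        rcases hdvd p hpp h3 with h4 | h4 | h4 | h4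
        · exact absurd h4 h1
        · rw [if_pos h4]
          split_ifs <;> linarith
        · rw [if_pos h4]
          split_ifs <;> linarith
        · rw [if_pos h4]
          split_ifs <;> linarith
      · rw [if_neg h3]
        split_ifs <;> linarith

lemma frac_nonneg (n s : ℕ) : 0 ≤ ((s : ℝ) + 1) / n := by positivity

/-- the solutions give abc triples of small radical -/
theorem main1 {A B C : ℕ} (hA : 0 < A) (hB : 0 < B) (hC : 0 < C) {F : ℝ} (hF : F < 1) (Q M : ℝ) :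
    ∃ K : ℝ, 0 ≤ K ∧ ∀ t ∈ Sol A B C F Q M,
      ratio A C t ≠ 0 ∧ ratio A C t ≠ 1 ∧ c (ratio A C t) = (ratio A C t).den ∧
      Real.log (R (abc (ratio A C t))) ≤ F * Real.log (c (ratio A C t)) + K := by
  refine ⟨3 * Real.log (A * B * C : ℕ) + Real.log (A * B * ⌈|Q|⌉₊ : ℕ) + 6 * |M|, ?_, ?_⟩
  · have h1 := Real.log_natCast_nonneg (A * B * C)
    have h2 := Real.log_natCast_nonneg (A * B * ⌈|Q|⌉₊)
    have h3 := abs_nonneg M
    linarith
  rintro ⟨X, Y, Z⟩ ⟨h, hQ, n1, s1, n2, s2, n3, s3, g1, g2, g3, hsum⟩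
  simp only at h hQ g1 g2 g3
  have hX := g1.pos
  have hY := g2.pos
  have hZ := g3.pos
  have hM0 := g1.M_nonneg
  have hF0 : 0 ≤ F := le_trans (add_nonneg (add_nonneg (frac_nonneg n1 s1) (frac_nonneg n2 s2))
    (frac_nonneg n3 s3)) hsum
  obtain ⟨a, q, g, ha0, hlt, hg0, hnum, hden, e1, e2, e3⟩ := exists_g hA hB hC hX hY hZ h
  set r := ratio A C (X, Y, Z) with hr
  have hr0 : r ≠ 0 := by
    intro h0
    rw [h0] at hnum
    simp at hnum
    omega
  have hr1 : r ≠ 1 := by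
    intro h0
    rw [h0] at hnum hden
    simp at hnum hden
    omega
  have hsub : (r.num - r.den).natAbs = q - a := by
    rw [hnum, hden]
    omega
  have hc : c r = q := by
    unfold c
    rw [hsub, hnum, hden, Int.natAbs_natCast]
    omega
  have habc : abc r = a * q * (q - a) := by
    unfold abc
    rw [hsub, hnum, hden, Int.natAbs_natCast]
  have hq0 : 0 < q := by omega
  refine ⟨hr0, hr1, by rw [hc, hden], ?_⟩
  rw [hc, habc]
  -- the gcd
  set G := Nat.gcd X Y with hGdef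
  have hG0 : 0 < G := Nat.gcd_pos_of_pos_left Y hX
  have hgdvd : g ∣ A * B * G := by
    have h1 : g ∣ A * B * X := ⟨B * a, by linear_combination B * e1⟩
    have h2 : g ∣ A * B * Y := ⟨A * (q - a), by
      have : A * B * Y = A * (B * Y) := by ring
      rw [this, e3]; ring⟩
    have h3 := Nat.dvd_gcd h1 h2
    rwa [Nat.gcd_mul_left] at h3
  have hRG : (0 : ℝ) < R G := by exact_mod_cast R_pos G
  have hGr : (0 : ℝ) < G := by exact_mod_cast hG0
  have hQ0 : 0 < Q := by
    by_contra hneg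
    push Not at hneg
    have : Q * R G ≤ 0 := mul_nonpos_of_nonpos_of_nonneg hneg hRG.le
    linarith
  have hQc : Q ≤ (⌈|Q|⌉₊ : ℕ) := (le_abs_self Q).trans (Nat.le_ceil _)
  have hQn : 0 < ⌈|Q|⌉₊ := Nat.ceil_pos.2 (abs_pos.2 hQ0.ne')
  have hglog : Real.log g ≤ Real.log (A * B * ⌈|Q|⌉₊ : ℕ) + Real.log (R G) := by
    have h1 : (g : ℝ) ≤ (A * B * ⌈|Q|⌉₊ : ℕ) * R G := by
      have h2 : (g : ℝ) ≤ (A * B * G : ℕ) := by
        exact_mod_cast Nat.le_of_dvd (by positivity) hgdvd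
      refine h2.trans ?_
      push_cast
      have h3 : (G : ℝ) ≤ (⌈|Q|⌉₊ : ℝ) * R G := hQ.trans (mul_le_mul_of_nonneg_right hQc hRG.le)
      have h4 : (0 : ℝ) ≤ (A : ℝ) * B := by positivity
      have h5 := mul_le_mul_of_nonneg_left h3 h4
      linarith
    have h2 := Real.log_le_log (by exact_mod_cast hg0) h1
    rwa [Real.log_mul (by positivity) hRG.ne'] at h2
  have hrad := rad_bound (N := a * q * (q - a)) hA hB hC hX hY hZ h
    (Nat.mul_ne_zero (Nat.mul_ne_zero ha0.ne' hq0.ne') (by omega)) (fun p hp hpN => by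
      rcases (Nat.Prime.dvd_mul hp).1 hpN with h1 | h1
      · rcases (Nat.Prime.dvd_mul hp).1 h1 with h2 | h2
        · have h3 : p ∣ A * X := e1 ▸ h2.mul_right g
          rcases (Nat.Prime.dvd_mul hp).1 h3 with h4 | h4
          · left
            rw [mul_assoc]
            exact h4.mul_right _
          · tauto
        · have h3 : p ∣ C * Z := e2 ▸ h2.mul_right g
          rcases (Nat.Prime.dvd_mul hp).1 h3 with h4 | h4
          · exact Or.inl (h4.mul_left _)
          · tauto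
      · have h3 : p ∣ B * Y := e3 ▸ h1.mul_right g
        rcases (Nat.Prime.dvd_mul hp).1 h3 with h4 | h4
        · left
          exact (h4.mul_left A).mul_right C
        · tauto)
  have hABC : Real.log (R (A * B * C)) ≤ Real.log (A * B * C : ℕ) :=
    Real.log_le_log (by exact_mod_cast R_pos _) (by exact_mod_cast R_le (by positivity))
  -- heights
  have hCZ : Real.log (C * Z : ℕ) = Real.log q + Real.log g := by
    rw [e2]
    push_cast
    rw [Real.log_mul (by exact_mod_cast hq0.ne') (by exact_mod_cast hg0.ne')]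
  have hXle : Real.log X ≤ Real.log (C * Z : ℕ) := by
    refine Real.log_le_log (by exact_mod_cast hX) ?_
    have : X ≤ C * Z := by
      have := Nat.le_mul_of_pos_left X hA
      omega
    exact_mod_cast this
  have hYle : Real.log Y ≤ Real.log (C * Z : ℕ) := by
    refine Real.log_le_log (by exact_mod_cast hY) ?_
    have : Y ≤ C * Z := by
      have := Nat.le_mul_of_pos_left Y hB
      omega
    exact_mod_cast this
  have hZle : Real.log Z ≤ Real.log (C * Z : ℕ) := by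
    refine Real.log_le_log (by exact_mod_cast hZ) ?_
    have : Z ≤ C * Z := Nat.le_mul_of_pos_left Z hC
    exact_mod_cast this
  have hL0 : 0 ≤ Real.log (C * Z : ℕ) := Real.log_natCast_nonneg _
  have k1 := g1.rad_le
  have k2 := g2.rad_le
  have k3 := g3.rad_le
  have m1 := mul_le_mul_of_nonneg_left hXle (frac_nonneg n1 s1)
  have m2 := mul_le_mul_of_nonneg_left hYle (frac_nonneg n2 s2)
  have m3 := mul_le_mul_of_nonneg_left hZle (frac_nonneg n3 s3)
  have m4 := mul_le_mul_of_nonneg_right hsum hL0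
  have hRG1 : 0 ≤ Real.log (R G) := Real.log_natCast_nonneg _
  have hF1 : F * Real.log g ≤ Real.log (A * B * ⌈|Q|⌉₊ : ℕ) + Real.log (R G) := by
    have h1 : F * Real.log g ≤ 1 * Real.log g :=
      mul_le_mul_of_nonneg_right hF.le (Real.log_natCast_nonneg _)
    linarith
  have hMabs := le_abs_self M
  have m5 : F * Real.log (C * Z : ℕ) = F * Real.log q + F * Real.log g := by
    rw [hCZ]; ring
  linarith

/-- each ratio comes from finitely many solutions -/
theorem main2 {A B C : ℕ} (hA : 0 < A) (hB : 0 < B) (hC : 0 < C) {F : ℝ} (hF : F < 1) (Q M : ℝ)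
    (r0 : ℚ) : {t | t ∈ Sol A B C F Q M ∧ ratio A C t = r0}.Finite := by
  -- a bound for `X`
  obtain ⟨L, hL⟩ : ∃ L : ℝ, ∀ t ∈ Sol A B C F Q M, ratio A C t = r0 →
      (t.1 : ℝ) ≤ L := by
    refine ⟨Real.exp ((Real.log (r0.num.natAbs * (A * B * ⌈|Q|⌉₊) : ℕ) + 2 * |M|) / (1 - F)), ?_⟩
    rintro ⟨X, Y, Z⟩ ⟨h, hQ, n1, s1, n2, s2, n3, s3, g1, g2, g3, hsum⟩ hrat
    simp only at h hQ g1 g2 g3 ⊢
    have hX := g1.pos
    have hY := g2.pos
    have hZ := g3.pos
    obtain ⟨a, q, g, ha0, hlt, hg0, hnum, hden, e1, e2, e3⟩ := exists_g hA hB hC hX hY hZ h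
    rw [hrat] at hnum hden
    set G := Nat.gcd X Y with hGdef
    have hG0 : 0 < G := Nat.gcd_pos_of_pos_left Y hX
    have hgdvd : g ∣ A * B * G := by
      have h1 : g ∣ A * B * X := ⟨B * a, by linear_combination B * e1⟩
      have h2 : g ∣ A * B * Y := ⟨A * (q - a), by
        have : A * B * Y = A * (B * Y) := by ring
        rw [this, e3]; ring⟩
      have h3 := Nat.dvd_gcd h1 h2
      rwa [Nat.gcd_mul_left] at h3
    have hRG : (0 : ℝ) < R G := by exact_mod_cast R_pos G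
    have hGr : (0 : ℝ) < G := by exact_mod_cast hG0
    have hQ0 : 0 < Q := by
      by_contra hneg
      push Not at hneg
      have : Q * R G ≤ 0 := mul_nonpos_of_nonpos_of_nonneg hneg hRG.le
      linarith
    have hQc : Q ≤ (⌈|Q|⌉₊ : ℕ) := (le_abs_self Q).trans (Nat.le_ceil _)
    have hQn : 0 < ⌈|Q|⌉₊ := Nat.ceil_pos.2 (abs_pos.2 hQ0.ne')
    have hRGX : Real.log (R G) ≤ Real.log (R X) := by
      refine Real.log_le_log hRG ?_
      have : R G ≤ R X := R_mono (Nat.primeFactors_mono (Nat.gcd_dvd_left X Y) hX.ne')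
      exact_mod_cast this
    have hnat : r0.num.natAbs = a := by rw [hnum, Int.natAbs_natCast]
    have hXle : (X : ℝ) ≤ (r0.num.natAbs * (A * B * ⌈|Q|⌉₊) : ℕ) * R G := by
      have h1 : X ≤ a * (A * B * G) := by
        have h2 : X ≤ A * X := Nat.le_mul_of_pos_left X hA
        rw [e1] at h2
        exact h2.trans (Nat.mul_le_mul_left a (Nat.le_of_dvd (by positivity) hgdvd))
      have h2 : (X : ℝ) ≤ (a * (A * B * G) : ℕ) := by exact_mod_cast h1
      refine h2.trans ?_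
      rw [hnat]
      push_cast
      have h3 : (G : ℝ) ≤ (⌈|Q|⌉₊ : ℝ) * R G := hQ.trans (mul_le_mul_of_nonneg_right hQc hRG.le)
      have h4 : (0 : ℝ) ≤ (a : ℝ) * (A * B) := by positivity
      have h5 := mul_le_mul_of_nonneg_left h3 h4
      linarith
    have hXr : (0 : ℝ) < X := by exact_mod_cast hX
    have hlogX : Real.log X ≤ Real.log (r0.num.natAbs * (A * B * ⌈|Q|⌉₊) : ℕ) + Real.log (R G) := by
      have h1 := Real.log_le_log hXr hXle
      have h2 : ((r0.num.natAbs * (A * B * ⌈|Q|⌉₊) : ℕ) : ℝ) ≠ 0 := by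
        rw [hnat]
        positivity
      rwa [Real.log_mul h2 hRG.ne'] at h1
    have hk := g1.rad_le
    have hfr : ((s1 : ℝ) + 1) / n1 ≤ F := by
      have := frac_nonneg n2 s2
      have := frac_nonneg n3 s3
      linarith
    have hlog0 : 0 ≤ Real.log X := Real.log_natCast_nonneg X
    have h1 := mul_le_mul_of_nonneg_right hfr hlog0
    have hMabs := le_abs_self M
    have h2 : (1 - F) * Real.log X ≤
        Real.log (r0.num.natAbs * (A * B * ⌈|Q|⌉₊) : ℕ) + 2 * |M| := by linarith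
    have h3 : Real.log X ≤
        (Real.log (r0.num.natAbs * (A * B * ⌈|Q|⌉₊) : ℕ) + 2 * |M|) / (1 - F) := by
      rw [le_div_iff₀ (by linarith)]
      linarith
    exact (Real.log_le_iff_le_exp hXr).1 h3
  -- the ratio and `X` determine the solution
  have hinj : Set.InjOn (fun t : ℕ × ℕ × ℕ => t.1) {t | t ∈ Sol A B C F Q M ∧ ratio A C t = r0} := by
    rintro ⟨X, Y, Z⟩ ⟨⟨h, _, n1, s1, n2, s2, n3, s3, g1, g2, g3, _⟩, hr⟩ ⟨X', Y', Z'⟩
      ⟨⟨h', _, n1', s1', n2', s2', n3', s3', g1', g2', g3', _⟩, hr'⟩ hXX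
    simp only at h g1 g2 g3 h' g1' g2' g3' hXX
    subst hXX
    have hX := g1.pos
    have hZ := g3.pos
    have hZ' := g3'.pos
    have h1 : ((A * X : ℕ) : ℚ) / ((C * Z : ℕ) : ℚ) = ((A * X : ℕ) : ℚ) / ((C * Z' : ℕ) : ℚ) := by
      have e1 : ratio A C (X, Y, Z) = ratio A C (X, Y', Z') := hr.trans hr'.symm
      exact e1
    have hAX : ((A * X : ℕ) : ℚ) ≠ 0 := by
      have : A * X ≠ 0 := (Nat.mul_pos hA hX).ne'
      exact_mod_cast this
    have hCZ : ((C * Z : ℕ) : ℚ) ≠ 0 := by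
      have : C * Z ≠ 0 := (Nat.mul_pos hC hZ).ne'
      exact_mod_cast this
    have hCZ' : ((C * Z' : ℕ) : ℚ) ≠ 0 := by
      have : C * Z' ≠ 0 := (Nat.mul_pos hC hZ').ne'
      exact_mod_cast this
    rw [div_eq_div_iff hCZ hCZ'] at h1
    have h2 := mul_left_cancel₀ hAX h1
    have h3 : C * Z' = C * Z := by exact_mod_cast h2
    have h4 : Z' = Z := Nat.eq_of_mul_eq_mul_left hC h3
    have h5 : Y = Y' := by
      rw [h4] at h'
      have h6 : B * Y = B * Y' := by omega
      exact Nat.eq_of_mul_eq_mul_left hB h6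
    rw [h4, h5]
  refine Set.Finite.of_finite_image ?_ hinj
  refine (Set.finite_Iic ⌊L⌋₊).subset ?_
  rintro _ ⟨t, ⟨h1, h2⟩, rfl⟩
  exact Nat.le_floor (hL t h1 h2)

end Q273.SP
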