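import Pool.Agent.Q273.SP.Place

/-!
# Malnormality of decomposition groups (F. K. Schmidt)
-/

set_option autoImplicit false

namespace Pool.Agent.Q273.SP

section
variable {Ω : Type} [Field Ω]

/-- the field of the elements fixed by `h` -/
def fixed (h : Ω →+* Ω) : Subfield Ω := RingHom.eqLocusField h (RingHom.id Ω)

theorem mem_fixed {h : Ω →+* Ω} {x : Ω} : x ∈ fixed h ↔ h x = x := Iff.rfl

/-- places which agree on the fixed field of `h` and are `h`-invariant are equal -/
theorem eq_of_fixed {p q : ℕ} {w u : Ω → ℝ} (hp : p.Prime) (hq : q.Prime) (hw : IsPl p w)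
    (hu : IsPl q u) (h : Ω →+* Ω) (hfin : ∀ x, ∃ m : ℕ, 0 < m ∧ (h^[m]) x = x)
    (hhw : ∀ x, w (h x) = w x) (hhu : ∀ x, u (h x) = u x) (heq : ∀ e ∈ fixed h, w e = u e) :
    w = u := by
  funext x
  obtain ⟨m, hm, hmx⟩ := hfin x
  let N : Ω := ∏ i ∈ Finset.range m, (h^[i]) x
  have hN : N ∈ fixed h := by
    rw [mem_fixed, map_prod]
    have h1 : ∏ i ∈ Finset.range m, h ((h^[i]) x) = ∏ i ∈ Finset.range m, (h^[i + 1]) x :=
      Finset.prod_congr rfl fun i _ => (Function.iterate_succ_apply' h i x).symm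
    rw [h1]
    obtain ⟨k, rfl⟩ := Nat.exists_eq_succ_of_ne_zero hm.ne'
    change ∏ i ∈ Finset.range (k + 1), (h^[i + 1]) x = ∏ i ∈ Finset.range (k + 1), (h^[i]) x
    rw [Finset.prod_range_succ, Finset.prod_range_succ' (fun i => (h^[i]) x) k]
    congr 1
  have hwi : ∀ i, w ((h^[i]) x) = w x := by
    intro i
    induction i with
    | zero => rfl
    | succ i ih => rw [Function.iterate_succ_apply', hhw, ih]
  have hui : ∀ i, u ((h^[i]) x) = u x := by
    intro i
    induction i with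
    | zero => rfl
    | succ i ih => rw [Function.iterate_succ_apply', hhu, ih]
  have h1 := heq N hN
  have h2 : w N = w x ^ m := by
    change w (∏ i ∈ Finset.range m, (h^[i]) x) = _
    rw [hw.finset_prod hp, Finset.prod_congr rfl fun i _ => hwi i, Finset.prod_const,
      Finset.card_range]
  have h3 : u N = u x ^ m := by
    change u (∏ i ∈ Finset.range m, (h^[i]) x) = _
    rw [hu.finset_prod hq, Finset.prod_congr rfl fun i _ => hui i, Finset.prod_const,
      Finset.card_range]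
  rw [h2, h3] at h1
  exact (pow_left_inj₀ (hw.nonneg x) (hu.nonneg x) hm.ne').1 h1

/-- a Kummer generator -/
theorem exists_kummer (h : Ω →+* Ω) {l : ℕ} (hl : l.Prime) (hl0 : (l : Ω) ≠ 0) {ζ : Ω}
    (hζ : IsPrimitiveRoot ζ l) (hhζ : h ζ = ζ) {x : Ω} (hx : (h^[l]) x = x) (hne : h x ≠ x) :
    ∃ α η : Ω, α ≠ 0 ∧ η ≠ 1 ∧ η ^ l = 1 ∧ h α = η * α := by
  have hζ0 : ζ ≠ 0 := hζ.ne_zero hl.ne_zero
  let S : ℕ → Ω := fun j => ∑ i ∈ Finset.range l, (ζ ^ j)⁻¹ ^ i * (h^[i]) x
  have hS : ∀ j, h (S j) = ζ ^ j * S j := by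
    intro j
    have hη0 : ζ ^ j ≠ 0 := pow_ne_zero _ hζ0
    have h1 : h (S j) = ζ ^ j * ∑ i ∈ Finset.range l, (ζ ^ j)⁻¹ ^ (i + 1) * (h^[i + 1]) x := by
      change h (∑ i ∈ Finset.range l, (ζ ^ j)⁻¹ ^ i * (h^[i]) x) = _
      rw [map_sum, Finset.mul_sum]
      refine Finset.sum_congr rfl fun i _ => ?_
      rw [map_mul, map_pow, map_inv₀, map_pow, hhζ, ← Function.iterate_succ_apply' h i x, pow_succ]
      field_simp
    rw [h1]
    congr 1
    obtain ⟨k, rfl⟩ := Nat.exists_eq_succ_of_ne_zero hl.ne_zero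
    change ∑ i ∈ Finset.range (k + 1), (ζ ^ j)⁻¹ ^ (i + 1) * (h^[i + 1]) x =
      ∑ i ∈ Finset.range (k + 1), (ζ ^ j)⁻¹ ^ i * (h^[i]) x
    rw [Finset.sum_range_succ, Finset.sum_range_succ' (fun i => (ζ ^ j)⁻¹ ^ i * (h^[i]) x) k]
    congr 1
    have h2 : (ζ ^ j)⁻¹ ^ (k + 1) = 1 := by
      rw [inv_pow, ← pow_mul, mul_comm, pow_mul, hζ.pow_eq_one, one_pow, inv_one]
    rw [h2, pow_zero]
    congr 1
  obtain ⟨j, hj, hSj⟩ : ∃ j, ζ ^ j ≠ 1 ∧ S j ≠ 0 := by
    by_contra hcon
    push Not at hcon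
    have h1 : ∑ j ∈ Finset.range l, S j = l * x := by
      change ∑ j ∈ Finset.range l, ∑ i ∈ Finset.range l, (ζ ^ j)⁻¹ ^ i * (h^[i]) x = _
      rw [Finset.sum_comm]
      rw [Finset.sum_eq_single_of_mem 0 (Finset.mem_range.2 hl.pos)]
      · simp
      · intro i hi hi0
        rw [← Finset.sum_mul]
        have h2 : ∑ j ∈ Finset.range l, (ζ ^ j)⁻¹ ^ i = 0 := by
          have h3 : ∀ j, (ζ ^ j)⁻¹ ^ i = ((ζ ^ i)⁻¹) ^ j := by
            intro j
            rw [inv_pow, inv_pow, ← pow_mul, ← pow_mul, mul_comm]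
          rw [Finset.sum_congr rfl fun j _ => h3 j]
          have h4 : (ζ ^ i)⁻¹ ≠ 1 := by
            intro h5
            rw [inv_eq_one] at h5
            have h6 := (hζ.pow_eq_one_iff_dvd i).1 h5
            exact hi0 (Nat.eq_zero_of_dvd_of_lt h6 (Finset.mem_range.1 hi))
          have h7 := mul_geom_sum (ζ ^ i)⁻¹ l
          have h8 : (ζ ^ i)⁻¹ ^ l = 1 := by
            rw [inv_pow, ← pow_mul, mul_comm, pow_mul, hζ.pow_eq_one, one_pow, inv_one]
          rw [h8, sub_self] at h7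
          exact (mul_eq_zero.1 h7).resolve_left (sub_ne_zero.2 h4)
        rw [h2, zero_mul]
    have h2 : ∑ j ∈ Finset.range l, S j = S 0 := by
      refine Finset.sum_eq_single_of_mem 0 (Finset.mem_range.2 hl.pos) fun j hj hj0 => ?_
      refine hcon j fun h3 => ?_
      exact hj0 (Nat.eq_zero_of_dvd_of_lt ((hζ.pow_eq_one_iff_dvd j).1 h3) (Finset.mem_range.1 hj))
    have h3 := hS 0
    rw [pow_zero, one_mul, ← h2, h1, map_mul, map_natCast] at h3
    exact hne (mul_left_cancel₀ hl0 h3)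
  exact ⟨S j, ζ ^ j, hSj, hj, by rw [← pow_mul, mul_comm, pow_mul, hζ.pow_eq_one, one_pow], hS j⟩

/-- a power of `g` has order exactly `l` on an element and fixes the `l`-th roots of unity -/
theorem fix_root (h : Ω →+* Ω) {l : ℕ} (hl : l.Prime) {ζ : Ω} (hζ : IsPrimitiveRoot ζ l)
    (hζl : (h^[l]) ζ = ζ) : h ζ = ζ := by
  have hroot : IsPrimitiveRoot (h ζ) l := hζ.map_of_injective h.injective
  have : NeZero l := ⟨hl.ne_zero⟩
  obtain ⟨k, hk, hkζ⟩ := hζ.eq_pow_of_pow_eq_one hroot.pow_eq_one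
  have hco : Nat.Coprime k l := by
    rw [← hkζ] at hroot
    exact (hζ.pow_iff_coprime hl.pos k).1 hroot
  have hit : ∀ i, (h^[i]) ζ = ζ ^ k ^ i := by
    intro i
    induction i with
    | zero => rw [pow_zero, pow_one]; rfl
    | succ i ih => rw [Function.iterate_succ_apply', ih, map_pow, ← hkζ, ← pow_mul, pow_succ, mul_comm]
  have h1 : ζ ^ k ^ (l - 1) = ζ := by
    have h2 : (k : ℤ) ^ (l - 1) ≡ 1 [ZMOD l] :=
      Int.ModEq.pow_card_sub_one_eq_one hl (Nat.isCoprime_iff_coprime.2 hco)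
    have h3 : k ^ (l - 1) ≡ 1 [MOD l] := by
      rw [← Int.natCast_modEq_iff]
      exact_mod_cast h2
    have h4 : ζ ^ k ^ (l - 1) = ζ ^ 1 := pow_eq_pow_of_modEq h3 hζ.pow_eq_one
    rw [h4, pow_one]
  have h2 : (h^[l - 1]) ζ = ζ := by rw [hit, h1]
  have h3 : l = (l - 1) + 1 := (Nat.succ_pred_eq_of_pos hl.pos).symm
  rw [h3, Function.iterate_succ_apply', h2] at hζl
  exact hζl

/-- **Malnormality**: a field automorphism with finite orbits which preserves two different places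
is the identity. -/
theorem malnormal_aux [IsAlgClosed Ω] [CharZero Ω] {p q : ℕ} {w u : Ω → ℝ} (hp : p.Prime)
    (hq : q.Prime) (hw : IsPl p w) (hu : IsPl q u) (hne : w ≠ u) (g : Ω →+* Ω)
    (hfin : ∀ x, ∃ m : ℕ, 0 < m ∧ (g^[m]) x = x)
    (hgw : ∀ x, w (g x) = w x) (hgu : ∀ x, u (g x) = u x) (x : Ω) : g x = x := by
  by_contra hx
  -- the period of `x`
  have hxp : x ∈ Function.periodicPts g := by
    obtain ⟨m, hm, hmx⟩ := hfin x
    exact ⟨m, hm, hmx⟩
  let n := Function.minimalPeriod g x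
  have hn0 : 0 < n := Function.minimalPeriod_pos_of_mem_periodicPts hxp
  have hn1 : n ≠ 1 := by
    intro h
    have h1 := Function.isPeriodicPt_minimalPeriod g x
    change Function.IsPeriodicPt g n x at h1
    rw [h] at h1
    exact hx h1
  obtain ⟨l, hl, hln⟩ := Nat.exists_prime_and_dvd hn1
  have hl0 : (l : Ω) ≠ 0 := by exact_mod_cast hl.ne_zero
  have hNl : NeZero (l : Ω) := ⟨hl0⟩
  obtain ⟨ζ, hζ⟩ := HasEnoughRootsOfUnity.exists_primitiveRoot Ω l
  -- the common period
  let G : Ω × Ω → Ω × Ω := fun z => (g z.1, g z.2)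
  have hGi : ∀ i (z : Ω × Ω), (G^[i]) z = ((g^[i]) z.1, (g^[i]) z.2) := by
    intro i z
    induction i with
    | zero => rfl
    | succ i ih =>
      rw [Function.iterate_succ_apply', ih, Function.iterate_succ_apply',
        Function.iterate_succ_apply']
  let P := Function.minimalPeriod G (x, ζ)
  have hPp : (x, ζ) ∈ Function.periodicPts G := by
    obtain ⟨m, hm, hmx⟩ := hfin x
    obtain ⟨k, hk, hkζ⟩ := hfin ζ
    refine ⟨m * k, Nat.mul_pos hm hk, ?_⟩
    change (G^[m * k]) (x, ζ) = (x, ζ)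
    rw [hGi]
    have h1 : (g^[m * k]) x = x := by
      rw [Function.iterate_mul]
      exact Function.iterate_fixed hmx k
    have h2 : (g^[m * k]) ζ = ζ := by
      rw [mul_comm, Function.iterate_mul]
      exact Function.iterate_fixed hkζ m
    rw [h1, h2]
  have hP0 : 0 < P := Function.minimalPeriod_pos_of_mem_periodicPts hPp
  have hPx : (g^[P]) x = x ∧ (g^[P]) ζ = ζ := by
    have h1 : (G^[P]) (x, ζ) = (x, ζ) := Function.isPeriodicPt_minimalPeriod G (x, ζ)
    rw [hGi] at h1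
    exact ⟨congrArg Prod.fst h1, congrArg Prod.snd h1⟩
  have hnP : n ∣ P := Function.IsPeriodicPt.minimalPeriod_dvd hPx.1
  obtain ⟨r, hr⟩ := hln.trans hnP
  have hr0 : 0 < r := by
    rcases Nat.eq_zero_or_pos r with h | h
    · rw [h, mul_zero] at hr
      omega
    · exact h
  -- the power `h = g ^ r`
  let h : Ω →+* Ω := g ^ r
  have hh : ∀ i z, (h^[i]) z = (g^[r * i]) z := by
    intro i z
    induction i generalizing z with
    | zero => rfl
    | succ i ih =>
      rw [Function.iterate_succ_apply, ih, mul_add, mul_one, Function.iterate_add_apply]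
      congr 1
  have hhz : ∀ z, h z = (g^[r]) z := fun z => congrFun (RingHom.coe_pow g r) z
  have hhl : (h^[l]) x = x := by rw [hh, mul_comm, ← hr]; exact hPx.1
  have hhlζ : (h^[l]) ζ = ζ := by rw [hh, mul_comm, ← hr]; exact hPx.2
  have hζfix : h ζ = ζ := fix_root h hl hζ hhlζ
  have hxne : h x ≠ x := by
    intro h1
    have h2 : (G^[r]) (x, ζ) = (x, ζ) := by
      rw [hGi, ← hhz, ← hhz, h1, hζfix]
    have h3 : P ∣ r := Function.IsPeriodicPt.minimalPeriod_dvd h2
    have h4 := Nat.le_of_dvd hr0 h3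
    rw [hr] at h4
    have h5 := hl.two_le
    nlinarith
  have hiter : ∀ i z, w ((g^[i]) z) = w z ∧ u ((g^[i]) z) = u z := by
    intro i z
    induction i with
    | zero => exact ⟨rfl, rfl⟩
    | succ i ih =>
      rw [Function.iterate_succ_apply', hgw, hgu]
      exact ih
  have hhw : ∀ z, w (h z) = w z := fun z => by rw [hhz]; exact (hiter r z).1
  have hhu : ∀ z, u (h z) = u z := fun z => by rw [hhz]; exact (hiter r z).2
  have hhfin : ∀ z, ∃ m : ℕ, 0 < m ∧ (h^[m]) z = z := by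
    intro z
    obtain ⟨m, hm, hmz⟩ := hfin z
    refine ⟨m, hm, ?_⟩
    rw [hh, mul_comm, Function.iterate_mul]
    exact Function.iterate_fixed hmz r
  -- separation on the fixed field
  obtain ⟨e, he, hwue⟩ : ∃ e ∈ fixed h, w e ≠ u e := by
    by_contra hcon
    push Not at hcon
    exact hne (eq_of_fixed hp hq hw hu h hhfin hhw hhu hcon)
  obtain ⟨c, hc, hwc, huc⟩ := exists_sep hp hq hw hu (fixed h) he hwue
  obtain ⟨α, η, hα, hη, hηl, hhα⟩ := exists_kummer h hl hl0 hζ hζfix hhl hxne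
  have hNZ : NeZero l := ⟨hl.ne_zero⟩
  have ha : α ^ l ∈ fixed h := by
    rw [mem_fixed, map_pow, hhα, mul_pow, hηl, one_mul]
  obtain ⟨δ₁, hδ₁, hw1⟩ := exists_fix_radius hp hw hζ
  obtain ⟨δ₂, hδ₂, hu1⟩ := exists_fix_radius hq hu hζ
  have hwa : 0 < w (α ^ l) := hw.pos hp (pow_ne_zero _ hα)
  obtain ⟨b, hb, hb1, hb2⟩ := exists_approx hp hq hw hu (fixed h) hc hwc huc ha
    (δ := min (δ₁ * w (α ^ l)) (min δ₂ 1)) (lt_min (mul_pos hδ₁ hwa) (lt_min hδ₂ one_pos))
  have hb0 : b ≠ 0 := by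
    rintro rfl
    rw [zero_sub, hu.neg_one hq] at hb2
    exact lt_irrefl _ (hb2.trans_le ((min_le_right _ _).trans (min_le_right _ _)))
  obtain ⟨β, hβ⟩ := IsAlgClosed.exists_pow_nat_eq b hl.pos
  have hβ0 : β ≠ 0 := by
    rintro rfl
    rw [zero_pow hl.ne_zero] at hβ
    exact hb0 hβ.symm
  have hβfix : h β = β := by
    refine hu1 h hhu hζfix β ?_ ?_
    · rw [hβ]
      exact hb2.trans_le ((min_le_right _ _).trans (min_le_left _ _))
    · rw [hβ]
      exact hb
  have hγfix : h (β / α) = β / α := by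
    refine hw1 h hhw hζfix (β / α) ?_ ?_
    · rw [div_pow, hβ, div_sub_one (pow_ne_zero _ hα), hw.div hp, div_lt_iff₀ hwa]
      exact hb1.trans_le (min_le_left _ _)
    · rw [div_pow, hβ]
      exact (fixed h).div_mem hb ha
  rw [map_div₀, hβfix, hhα] at hγfix
  have hηα : η * α ≠ 0 := by
    intro h1
    rcases mul_eq_zero.1 h1 with h2 | h2
    · rw [h2, zero_pow hl.ne_zero] at hηl
      exact zero_ne_one hηl
    · exact hα h2
  rw [div_eq_div_iff hηα hα] at hγfix
  have h1 : α = η * α := mul_left_cancel₀ hβ0 hγfix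
  have h2 : (1 - η) * α = 0 := by rw [sub_mul, one_mul, ← h1, sub_self]
  rcases mul_eq_zero.1 h2 with h3 | h3
  · exact hη (sub_eq_zero.1 h3).symm
  · exact hα h3

end

section
variable {K : Type} [Field K] [NumberField K]

omit [NumberField K] in
theorem finite_orbit (g : Gal(AlgebraicClosure K/K)) (x : AlgebraicClosure K) :
    ∃ m : ℕ, 0 < m ∧ ((g : AlgebraicClosure K → AlgebraicClosure K)^[m]) x = x := by
  classical
  have hx : IsIntegral K x := Algebra.IsIntegral.isIntegral x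
  have hit : ∀ i, minpoly K x = minpoly K (((g : AlgebraicClosure K → AlgebraicClosure K)^[i]) x) := by
    intro i
    induction i with
    | zero => rfl
    | succ i ih =>
      rw [Function.iterate_succ_apply']
      exact ih.trans (minpoly.algEquiv_eq g _).symm
  have hmem : ∀ i, ((g : AlgebraicClosure K → AlgebraicClosure K)^[i]) x ∈
      (minpoly K x).rootSet (AlgebraicClosure K) := by
    intro i
    rw [Polynomial.mem_rootSet]
    refine ⟨minpoly.ne_zero hx, ?_⟩
    rw [hit i]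
    exact minpoly.aeval K _
  have hfin : Finite ((minpoly K x).rootSet (AlgebraicClosure K)) :=
    (Polynomial.rootSet_finite _ _).to_subtype
  obtain ⟨i, j, hij, he⟩ := Finite.exists_ne_map_eq_of_infinite
    (fun i : ℕ => (⟨_, hmem i⟩ : (minpoly K x).rootSet (AlgebraicClosure K)))
  have he' : ((g : AlgebraicClosure K → AlgebraicClosure K)^[i]) x =
      ((g : AlgebraicClosure K → AlgebraicClosure K)^[j]) x := congrArg Subtype.val he
  have key : ∀ i j : ℕ, i < j → ((g : AlgebraicClosure K → AlgebraicClosure K)^[i]) x =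
      ((g : AlgebraicClosure K → AlgebraicClosure K)^[j]) x →
      ∃ m : ℕ, 0 < m ∧ ((g : AlgebraicClosure K → AlgebraicClosure K)^[m]) x = x := by
    intro i j hij he
    refine ⟨j - i, Nat.sub_pos_of_lt hij, ?_⟩
    have h1 : j = i + (j - i) := by omega
    rw [h1, Function.iterate_add_apply] at he
    exact ((g.injective.iterate i) he).symm
  rcases lt_or_gt_of_ne hij with h | h
  · exact key i j h he'
  · exact key j i h he'.symm

/-- **F. K. Schmidt's theorem.** -/
theorem malnormal {p q : ℕ} {w u : AlgebraicClosure K → ℝ} (hp : p.Prime)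
    (hq : q.Prime) (hw : IsPl p w) (hu : IsPl q u) (hne : w ≠ u) (g : Gal(AlgebraicClosure K/K))
    (hgw : ∀ x, w (g x) = w x) (hgu : ∀ x, u (g x) = u x) : g = 1 := by
  apply AlgEquiv.ext
  intro x
  exact malnormal_aux hp hq hw hu hne ((g : AlgebraicClosure K →ₐ[K] AlgebraicClosure K) :
    AlgebraicClosure K →+* AlgebraicClosure K) (fun x => finite_orbit g x) hgw hgu x

end

end Pool.Agent.Q273.SP
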