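import Mathlib

/-!
# Places of an algebraic closure and their decomposition groups

The decomposition groups of two different finite places of the algebraic closure of a number field
intersect trivially (F. K. Schmidt). The proof uses only radicals and weak approximation.
-/

set_option autoImplicit false

namespace Pool.Agent.Q273.SP

variable {Ω : Type} [Field Ω]

/-- a nonarchimedean absolute value (as a function) normalised by `w p = 1/p` -/
structure IsPl (p : ℕ) (w : Ω → ℝ) : Prop where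
  nonneg : ∀ x, 0 ≤ w x
  zero : w 0 = 0
  mul : ∀ x y, w (x * y) = w x * w y
  add : ∀ x y, w (x + y) ≤ max (w x) (w y)
  prime : w (p : Ω) = (p : ℝ)⁻¹

namespace IsPl
variable {p : ℕ} {w : Ω → ℝ}

theorem one (hw : IsPl p w) (hp : p.Prime) : w 1 = 1 := by
  have h1 := hw.mul (p : Ω) 1
  rw [mul_one, hw.prime] at h1
  have h2 : (p : ℝ)⁻¹ ≠ 0 := inv_ne_zero (by exact_mod_cast hp.ne_zero)
  exact (mul_eq_left₀ h2).1 h1.symm

theorem pow (hw : IsPl p w) (hp : p.Prime) (x : Ω) (n : ℕ) : w (x ^ n) = w x ^ n := by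
  induction n with
  | zero => rw [pow_zero, pow_zero, hw.one hp]
  | succ n ih => rw [pow_succ, hw.mul, ih, pow_succ]

theorem pos (hw : IsPl p w) (hp : p.Prime) {x : Ω} (hx : x ≠ 0) : 0 < w x := by
  refine lt_of_le_of_ne (hw.nonneg x) fun h => ?_
  have h1 := hw.mul x x⁻¹
  rw [mul_inv_cancel₀ hx, hw.one hp, ← h, zero_mul] at h1
  exact one_ne_zero h1

theorem eq_zero (hw : IsPl p w) (hp : p.Prime) {x : Ω} (hx : w x = 0) : x = 0 := by
  by_contra h
  exact (hw.pos hp h).ne' hx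

theorem neg_one (hw : IsPl p w) (hp : p.Prime) : w (-1) = 1 := by
  have h1 := hw.mul (-1) (-1)
  rw [neg_mul_neg, mul_one, hw.one hp] at h1
  nlinarith [hw.nonneg (-1)]

theorem neg (hw : IsPl p w) (hp : p.Prime) (x : Ω) : w (-x) = w x := by
  rw [← neg_one_mul, hw.mul, hw.neg_one hp, one_mul]

theorem sub (hw : IsPl p w) (hp : p.Prime) (x y : Ω) : w (x - y) ≤ max (w x) (w y) := by
  rw [sub_eq_add_neg]
  refine (hw.add _ _).trans ?_
  rw [hw.neg hp]

theorem sub_comm (hw : IsPl p w) (hp : p.Prime) (x y : Ω) : w (x - y) = w (y - x) := by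
  rw [← neg_sub, hw.neg hp]

theorem inv (hw : IsPl p w) (hp : p.Prime) (x : Ω) : w x⁻¹ = (w x)⁻¹ := by
  rcases eq_or_ne x 0 with rfl | hx
  · rw [inv_zero, hw.zero, inv_zero]
  · have h1 := hw.mul x x⁻¹
    rw [mul_inv_cancel₀ hx, hw.one hp] at h1
    exact (inv_eq_of_mul_eq_one_right h1.symm).symm

theorem div (hw : IsPl p w) (hp : p.Prime) (x y : Ω) : w (x / y) = w x / w y := by
  rw [div_eq_mul_inv, hw.mul, hw.inv hp, ← div_eq_mul_inv]

/-- the dominant term -/
theorem add_eq (hw : IsPl p w) (hp : p.Prime) {x y : Ω} (h : w x < w y) : w (x + y) = w y := by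
  apply le_antisymm
  · exact (hw.add x y).trans (max_le h.le le_rfl)
  · have h1 : w y ≤ max (w (x + y)) (w x) := by
      have h2 := hw.sub hp (x + y) x
      rwa [add_sub_cancel_left] at h2
    rcases le_max_iff.1 h1 with h2 | h2
    · exact h2
    · exact absurd h2 (not_le.2 h)

theorem nat_le (hw : IsPl p w) (hp : p.Prime) (n : ℕ) : w (n : Ω) ≤ 1 := by
  induction n with
  | zero => rw [Nat.cast_zero, hw.zero]; exact zero_le_one
  | succ n ih =>
    rw [Nat.cast_succ]
    refine (hw.add _ _).trans (max_le ih ?_)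
    rw [hw.one hp]

theorem int_le (hw : IsPl p w) (hp : p.Prime) (n : ℤ) : w (n : Ω) ≤ 1 := by
  rcases Int.natAbs_eq n with h | h
  · rw [h, Int.cast_natCast]
    exact hw.nat_le hp _
  · rw [h, Int.cast_neg, Int.cast_natCast, hw.neg hp]
    exact hw.nat_le hp _

theorem p_lt (hw : IsPl p w) (hp : p.Prime) : w (p : Ω) < 1 := by
  rw [hw.prime]
  exact inv_lt_one_of_one_lt₀ (by exact_mod_cast hp.one_lt)

theorem int_coprime (hw : IsPl p w) (hp : p.Prime) {n : ℤ} (h : ¬ (p : ℤ) ∣ n) :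
    w (n : Ω) = 1 := by
  have hc : IsCoprime (p : ℤ) n := by
    rw [Int.isCoprime_iff_gcd_eq_one]
    have h2 : Int.gcd (p : ℤ) n = Nat.gcd p n.natAbs := rfl
    rw [h2]
    refine (Nat.Prime.coprime_iff_not_dvd hp).2 fun h3 => h ?_
    exact Int.natCast_dvd.2 h3
  obtain ⟨a, b, hab⟩ := hc
  apply le_antisymm (hw.int_le hp n)
  by_contra hlt
  push Not at hlt
  have h1 : w ((a * p + b * n : ℤ) : Ω) < 1 := by
    push_cast
    refine lt_of_le_of_lt (hw.add _ _) (max_lt ?_ ?_)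
    · rw [hw.mul]
      exact lt_of_le_of_lt (mul_le_of_le_one_left (hw.nonneg _) (hw.int_le hp a)) (hw.p_lt hp)
    · rw [hw.mul]
      exact lt_of_le_of_lt (mul_le_of_le_one_left (hw.nonneg _) (hw.int_le hp b)) hlt
  rw [hab, Int.cast_one, hw.one hp] at h1
  exact lt_irrefl _ h1

theorem finset_prod (hw : IsPl p w) (hp : p.Prime) {ι : Type} (s : Finset ι) (f : ι → Ω) :
    w (∏ i ∈ s, f i) = ∏ i ∈ s, w (f i) := by
  classical
  induction s using Finset.induction_on with
  | empty => rw [Finset.prod_empty, Finset.prod_empty, hw.one hp]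
  | insert a s ha ih => rw [Finset.prod_insert ha, Finset.prod_insert ha, hw.mul, ih]

theorem finset_sum_lt (hw : IsPl p w) {ι : Type} (s : Finset ι) (f : ι → Ω) {r : ℝ}
    (hr : 0 < r) (h : ∀ i ∈ s, w (f i) < r) : w (∑ i ∈ s, f i) < r := by
  classical
  induction s using Finset.induction_on with
  | empty => rw [Finset.sum_empty, hw.zero]; exact hr
  | insert a s ha ih =>
    rw [Finset.sum_insert ha]
    exact lt_of_le_of_lt (hw.add _ _) (max_lt (h a (Finset.mem_insert_self a s))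
      (ih fun i hi => h i (Finset.mem_insert_of_mem hi)))

/-- algebraic integers are integral at all places -/
theorem integral_le (hw : IsPl p w) (hp : p.Prime) {x : Ω} (hx : IsIntegral ℤ x) : w x ≤ 1 := by
  obtain ⟨P, hP, hPx⟩ := hx
  by_contra hlt
  push Not at hlt
  have hx0 : 0 < w x := zero_lt_one.trans hlt
  have h1 : x ^ P.natDegree + ∑ i ∈ Finset.range P.natDegree, (P.coeff i : Ω) * x ^ i = 0 := by
    have h2 := hPx
    rw [hP.as_sum, Polynomial.eval₂_add, Polynomial.eval₂_X_pow, Polynomial.eval₂_finsetSum] at h2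
    rw [← h2]
    congr 1
    refine Finset.sum_congr rfl fun i _ => ?_
    rw [Polynomial.eval₂_mul, Polynomial.eval₂_C, Polynomial.eval₂_X_pow]
    rfl
  have h2 : w (∑ i ∈ Finset.range P.natDegree, (P.coeff i : Ω) * x ^ i) < w x ^ P.natDegree := by
    refine hw.finset_sum_lt _ _ (pow_pos hx0 _) fun i hi => ?_
    rw [hw.mul, hw.pow hp]
    refine lt_of_le_of_lt (mul_le_of_le_one_left (pow_nonneg hx0.le _) (hw.int_le hp _)) ?_
    exact pow_lt_pow_right₀ hlt (Finset.mem_range.1 hi)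
  rw [← hw.pow hp, eq_neg_of_add_eq_zero_right h1, hw.neg hp] at h2
  exact lt_irrefl _ h2

/-- the gap -/
theorem gap (hw : IsPl p w) (hp : p.Prime) {x : Ω} {P : Polynomial ℤ} (hP : P.Monic)
    (hPx : P.eval₂ (Int.castRingHom Ω) x = 0) (hlt : w x < 1) :
    w x ^ P.natDegree ≤ (p : ℝ)⁻¹ := by
  classical
  have hpp : (0 : ℝ) < (p : ℝ)⁻¹ := inv_pos.2 (by exact_mod_cast hp.pos)
  rcases (hw.nonneg x).eq_or_lt with h0 | hx0
  · rw [← h0]
    have hd : P.natDegree ≠ 0 := by
      intro hd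
      rw [Polynomial.Monic.natDegree_eq_zero hP |>.1 hd, Polynomial.eval₂_one] at hPx
      exact one_ne_zero hPx
    rw [zero_pow hd]
    exact hpp.le
  have hex : ∃ j, ¬ (p : ℤ) ∣ P.coeff j := ⟨P.natDegree, by
    rw [hP.coeff_natDegree]
    intro h
    have := Int.isUnit_iff.1 (isUnit_of_dvd_one h)
    have h2 := hp.one_lt
    omega⟩
  let j := Nat.find hex
  have hj : ¬ (p : ℤ) ∣ P.coeff j := Nat.find_spec hex
  have hj' : ∀ i < j, (p : ℤ) ∣ P.coeff i := fun i hi => not_not.1 (Nat.find_min hex hi)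
  have hjn : j ≤ P.natDegree := by
    by_contra h
    push Not at h
    exact hj (by rw [Polynomial.coeff_eq_zero_of_natDegree_lt h]; exact dvd_zero _)
  have hsum : ∑ i ∈ Finset.range (P.natDegree + 1), (P.coeff i : Ω) * x ^ i = 0 := by
    rw [Polynomial.eval₂_eq_sum_range] at hPx
    exact hPx
  have hjm : j ∈ Finset.range (P.natDegree + 1) := Finset.mem_range.2 (Nat.lt_succ_of_le hjn)
  rw [← Finset.add_sum_erase _ _ hjm] at hsum
  by_contra hcon
  push Not at hcon
  have hlarge : (p : ℝ)⁻¹ < w x ^ j := hcon.trans_le (pow_le_pow_of_le_one hx0.le hlt.le hjn)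
  have h2 : w (∑ i ∈ (Finset.range (P.natDegree + 1)).erase j, (P.coeff i : Ω) * x ^ i) <
      w x ^ j := by
    refine hw.finset_sum_lt _ _ (pow_pos hx0 _) fun i hi => ?_
    have hij : i ≠ j := (Finset.mem_erase.1 hi).1
    rw [hw.mul, hw.pow hp]
    rcases lt_or_gt_of_ne hij with h | h
    · obtain ⟨c, hc⟩ := hj' i h
      have h3 : w ((P.coeff i : ℤ) : Ω) ≤ (p : ℝ)⁻¹ := by
        rw [hc, Int.cast_mul, hw.mul, Int.cast_natCast, hw.prime]
        exact mul_le_of_le_one_right hpp.le (hw.int_le hp c)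
      calc w ((P.coeff i : ℤ) : Ω) * w x ^ i ≤ (p : ℝ)⁻¹ * 1 :=
            mul_le_mul h3 (pow_le_one₀ hx0.le hlt.le) (pow_nonneg hx0.le _) hpp.le
        _ < w x ^ j := by rwa [mul_one]
    · calc w ((P.coeff i : ℤ) : Ω) * w x ^ i ≤ 1 * w x ^ i :=
            mul_le_mul_of_nonneg_right (hw.int_le hp _) (pow_nonneg hx0.le _)
        _ < w x ^ j := by
            rw [one_mul]
            exact pow_lt_pow_right_of_lt_one₀ hx0 hlt h
  have h3 : w ((P.coeff j : Ω) * x ^ j) = w x ^ j := by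
    rw [hw.mul, hw.int_coprime hp hj, one_mul, hw.pow hp]
  rw [eq_neg_of_add_eq_zero_right hsum, hw.neg hp, h3] at h2
  exact lt_irrefl _ h2

end IsPl

/-! ### Malnormality -/

section
variable {p q : ℕ} {w u : Ω → ℝ}

/-- two places which differ at an element `e` are separated by a monomial in `e` and the primes -/
theorem exists_sep (hp : p.Prime) (hq : q.Prime) (hw : IsPl p w) (hu : IsPl q u)
    (E : Subfield Ω) {e : Ω} (he : e ∈ E) (hne : w e ≠ u e) :
    ∃ c ∈ E, w c < 1 ∧ 1 < u c := by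
  rcases eq_or_ne p q with rfl | hpq
  · -- the same prime
    have key : ∀ e ∈ E, w e < u e → ∃ c ∈ E, w c < 1 ∧ 1 < u c := by
      intro e he hlt
      have he0 : e ≠ 0 := by
        rintro rfl
        rw [hw.zero, hu.zero] at hlt
        exact lt_irrefl _ hlt
      have hwe := hw.pos hp he0
      have hpp : (1 : ℝ) < p := by exact_mod_cast hp.one_lt
      obtain ⟨k, hk⟩ := pow_unbounded_of_one_lt (p : ℝ) ((one_lt_div hwe).2 hlt)
      have hk' : (p : ℝ) * w e ^ k < u e ^ k := by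
        rw [div_pow, lt_div_iff₀ (pow_pos hwe k)] at hk
        exact hk
      obtain ⟨m, hm1, hm2⟩ := exists_mem_Ico_zpow (pow_pos hwe k) hpp
      refine ⟨e ^ k * (p : Ω) ^ (m + 1), E.mul_mem (E.pow_mem he k)
        (E.zpow_mem (natCast_mem E p) _), ?_, ?_⟩
      · have h1 : w ((p : Ω) ^ (m + 1)) = (p : ℝ)⁻¹ ^ (m + 1) := by
          have hz : ∀ z : ℤ, w ((p : Ω) ^ z) = (p : ℝ)⁻¹ ^ z := by
            intro z
            rcases z with n | n
            · rw [Int.ofNat_eq_natCast, zpow_natCast, zpow_natCast, hw.pow hp, hw.prime]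
            · rw [zpow_negSucc, zpow_negSucc, hw.inv hp, hw.pow hp, hw.prime]
          exact hz _
        rw [hw.mul, hw.pow hp, h1, inv_zpow, ← div_eq_mul_inv, div_lt_one (zpow_pos (by positivity) _)]
        exact hm2
      · have h1 : u ((p : Ω) ^ (m + 1)) = (p : ℝ)⁻¹ ^ (m + 1) := by
          have hz : ∀ z : ℤ, u ((p : Ω) ^ z) = (p : ℝ)⁻¹ ^ z := by
            intro z
            rcases z with n | n
            · rw [Int.ofNat_eq_natCast, zpow_natCast, zpow_natCast, hu.pow hp, hu.prime]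
            · rw [zpow_negSucc, zpow_negSucc, hu.inv hp, hu.pow hp, hu.prime]
          exact hz _
        rw [hu.mul, hu.pow hp, h1, inv_zpow, ← div_eq_mul_inv, one_lt_div (zpow_pos (by positivity) _)]
        refine lt_of_le_of_lt ?_ hk'
        rw [zpow_add_one₀ (by positivity), mul_comm]
        exact mul_le_mul_of_nonneg_left hm1 (by positivity)
    rcases lt_or_gt_of_ne hne with h | h
    · exact key e he h
    · have he0 : e ≠ 0 := by
        rintro rfl
        rw [hw.zero, hu.zero] at h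
        exact lt_irrefl _ h
      refine key e⁻¹ (E.inv_mem he) ?_
      rw [hw.inv hp, hu.inv hp]
      exact inv_strictAnti₀ (hu.pos hp he0) h
  · refine ⟨(p : Ω) / q, E.div_mem (natCast_mem E p) (natCast_mem E q), ?_, ?_⟩
    · rw [hw.div hp, hw.prime]
      have h1 : w ((q : ℤ) : Ω) = 1 := hw.int_coprime hp fun h =>
        hpq ((Nat.prime_dvd_prime_iff_eq hp hq).1 (by exact_mod_cast h))
      rw [Int.cast_natCast] at h1
      rw [h1, div_one]
      exact inv_lt_one_of_one_lt₀ (by exact_mod_cast hp.one_lt)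
    · rw [hu.div hq, hu.prime]
      have h1 : u ((p : ℤ) : Ω) = 1 := hu.int_coprime hq fun h =>
        hpq ((Nat.prime_dvd_prime_iff_eq hq hp).1 (by exact_mod_cast h)).symm
      rw [Int.cast_natCast] at h1
      rw [h1, one_div, inv_inv]
      exact_mod_cast hq.one_lt

/-- weak approximation at two places -/
theorem exists_approx (hp : p.Prime) (hq : q.Prime) (hw : IsPl p w) (hu : IsPl q u)
    (E : Subfield Ω) {c : Ω} (hc : c ∈ E) (hwc : w c < 1) (huc : 1 < u c) {a : Ω} (ha : a ∈ E)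
    {δ : ℝ} (hδ : 0 < δ) : ∃ b ∈ E, w (b - a) < δ ∧ u (b - 1) < δ := by
  obtain ⟨n₁, hn₁⟩ : ∃ n₁ : ℕ, ∀ n ≥ n₁, w (1 - a) * w c ^ n < δ := by
    have h1 : Filter.Tendsto (fun n : ℕ => w (1 - a) * w c ^ n) Filter.atTop (nhds 0) := by
      have h2 := (tendsto_pow_atTop_nhds_zero_of_lt_one (hw.nonneg c) hwc).const_mul (w (1 - a))
      rwa [mul_zero] at h2
    exact Filter.eventually_atTop.1 (h1.eventually (gt_mem_nhds hδ))
  obtain ⟨n₂, hn₂⟩ : ∃ n₂ : ℕ, ∀ n ≥ n₂, u (1 - a) * (u c)⁻¹ ^ n < δ := by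
    have h1 : Filter.Tendsto (fun n : ℕ => u (1 - a) * (u c)⁻¹ ^ n) Filter.atTop (nhds 0) := by
      have h2 := (tendsto_pow_atTop_nhds_zero_of_lt_one (inv_nonneg.2 (hu.nonneg c))
        (inv_lt_one_of_one_lt₀ huc)).const_mul (u (1 - a))
      rwa [mul_zero] at h2
    exact Filter.eventually_atTop.1 (h1.eventually (gt_mem_nhds hδ))
  let n := n₁ + n₂ + 1
  have hn0 : n ≠ 0 := Nat.succ_ne_zero _
  have hw1 : w (1 + c ^ n) = 1 := by
    have h1 : w (c ^ n) < w 1 := by
      rw [hw.one hp, hw.pow hp]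
      exact pow_lt_one₀ (hw.nonneg c) hwc hn0
    rw [add_comm, hw.add_eq hp h1, hw.one hp]
  have hu1 : u (1 + c ^ n) = u c ^ n := by
    have h1 : u 1 < u (c ^ n) := by
      rw [hu.one hq, hu.pow hq]
      exact one_lt_pow₀ huc hn0
    rw [hu.add_eq hq h1, hu.pow hq]
  have hne : (1 + c ^ n : Ω) ≠ 0 := by
    intro h
    rw [h, hw.zero] at hw1
    exact zero_ne_one hw1
  have hcn : (1 + c ^ n : Ω) ∈ E := E.add_mem E.one_mem (E.pow_mem hc n)
  refine ⟨a + (1 - a) * (c ^ n / (1 + c ^ n)), E.add_mem ha (E.mul_mem (E.sub_mem E.one_mem ha)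
    (E.div_mem (E.pow_mem hc n) hcn)), ?_, ?_⟩
  · rw [add_sub_cancel_left, hw.mul, hw.div hp, hw1, div_one, hw.pow hp]
    exact hn₁ n (by change n ≥ n₁; omega)
  · have h1 : a + (1 - a) * (c ^ n / (1 + c ^ n)) - 1 = -((1 - a) / (1 + c ^ n)) := by
      field_simp
      ring
    rw [h1, hu.neg hq, hu.div hq, hu1, div_eq_mul_inv, ← inv_pow]
    exact hn₂ n (by change n ≥ n₂; omega)

/-- an element whose `n`-th power is close to `1` is fixed -/
theorem exists_fix_radius (hp : p.Prime) (hw : IsPl p w) {n : ℕ} [NeZero n] {ζ : Ω}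
    (hζ : IsPrimitiveRoot ζ n) :
    ∃ δ : ℝ, 0 < δ ∧ ∀ h : Ω →+* Ω, (∀ x, w (h x) = w x) → h ζ = ζ → ∀ γ : Ω,
      w (γ ^ n - 1) < δ → h (γ ^ n) = γ ^ n → h γ = γ := by
  classical
  have hn : 0 < n := Nat.pos_of_ne_zero (NeZero.ne n)
  -- the minimal distance of the roots of unity
  obtain ⟨ε, hε0, hε1, hε⟩ : ∃ ε : ℝ, 0 < ε ∧ ε ≤ 1 ∧ ∀ k < n, ζ ^ k ≠ 1 → ε ≤ w (ζ ^ k - 1) := by
    have h1 : ∀ m ≤ n, ∃ ε : ℝ, 0 < ε ∧ ε ≤ 1 ∧ ∀ k < m, ζ ^ k ≠ 1 → ε ≤ w (ζ ^ k - 1) := by
      intro m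
      induction m with
      | zero => exact fun _ => ⟨1, one_pos, le_rfl, fun k hk => absurd hk (Nat.not_lt_zero k)⟩
      | succ m ih =>
        intro hm
        obtain ⟨ε, h2, h3, h4⟩ := ih (Nat.le_of_succ_le hm)
        by_cases hz : ζ ^ m = 1
        · refine ⟨ε, h2, h3, fun k hk hk1 => ?_⟩
          rcases Nat.lt_succ_iff_lt_or_eq.1 hk with h5 | rfl
          · exact h4 k h5 hk1
          · exact absurd hz hk1
        · have h5 : 0 < w (ζ ^ m - 1) := hw.pos hp (sub_ne_zero.2 hz)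
          refine ⟨min ε (w (ζ ^ m - 1)), lt_min h2 h5, (min_le_left _ _).trans h3,
            fun k hk hk1 => ?_⟩
          rcases Nat.lt_succ_iff_lt_or_eq.1 hk with h6 | rfl
          · exact (min_le_left _ _).trans (h4 k h6 hk1)
          · exact min_le_right _ _
    exact h1 n le_rfl
  refine ⟨ε ^ n, pow_pos hε0 n, fun h hh hhζ γ hγ hγn => ?_⟩
  have hδ1 : ε ^ n ≤ 1 := pow_le_one₀ hε0.le hε1
  -- `w γ = 1`
  have hwγn : w (γ ^ n) = 1 := by
    have h1 : w (γ ^ n - 1) < w 1 := by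
      rw [hw.one hp]
      exact hγ.trans_le hδ1
    have h2 := hw.add_eq hp h1
    rwa [sub_add_cancel, hw.one hp] at h2
  have hwγ : w γ = 1 := by
    rw [hw.pow hp] at hwγn
    exact (pow_eq_one_iff_of_nonneg (hw.nonneg γ) hn.ne').1 hwγn
  have hγ0 : γ ≠ 0 := by
    rintro rfl
    rw [hw.zero] at hwγ
    exact zero_ne_one hwγ
  -- a near root of unity
  obtain ⟨k, hk, hkε⟩ : ∃ k < n, w (γ - ζ ^ k) < ε := by
    by_contra hcon
    push Not at hcon
    have h1 : γ ^ n - 1 = ∏ k ∈ Finset.range n, (γ - ζ ^ k) := by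
      have h2 := congrArg (Polynomial.eval γ) (Polynomial.X_pow_sub_one_eq_prod hn hζ)
      rw [Polynomial.eval_sub, Polynomial.eval_pow, Polynomial.eval_X, Polynomial.eval_one,
        Polynomial.eval_prod] at h2
      rw [h2]
      simp only [Polynomial.eval_sub, Polynomial.eval_X, Polynomial.eval_C]
      have h3 : Polynomial.nthRootsFinset n (1 : Ω) = (Finset.range n).image (fun k => ζ ^ k) := by
        ext z
        rw [Polynomial.mem_nthRootsFinset hn, Finset.mem_image]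
        constructor
        · intro hz
          obtain ⟨i, hi, hi'⟩ := hζ.eq_pow_of_pow_eq_one hz
          exact ⟨i, Finset.mem_range.2 hi, hi'⟩
        · rintro ⟨i, -, rfl⟩
          rw [← pow_mul, mul_comm, pow_mul, hζ.pow_eq_one, one_pow]
      rw [h3, Finset.prod_image]
      intro i hi j hj hij
      exact hζ.pow_inj (Finset.mem_range.1 hi) (Finset.mem_range.1 hj) hij
    rw [h1, hw.finset_prod hp] at hγ
    have h4 : ε ^ n ≤ ∏ k ∈ Finset.range n, w (γ - ζ ^ k) := by
      rw [← Finset.card_range n, ← Finset.prod_const, Finset.card_range]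
      exact Finset.prod_le_prod (fun i _ => hε0.le) fun i hi => hcon i (Finset.mem_range.1 hi)
    exact absurd hγ (not_lt.2 h4)
  -- the conjugate
  have h1 : w (h γ - ζ ^ k) < ε := by
    have h2 := hh (γ - ζ ^ k)
    rw [map_sub, map_pow, hhζ] at h2
    rw [h2]
    exact hkε
  have h2 : w (h γ - γ) < ε := by
    have h3 : h γ - γ = (h γ - ζ ^ k) - (γ - ζ ^ k) := by ring
    rw [h3]
    exact lt_of_le_of_lt (hw.sub hp _ _) (max_lt h1 hkε)
  -- the quotient is a root of unity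
  have h3 : (h γ / γ) ^ n = 1 := by
    rw [div_pow, ← map_pow, hγn, div_self (pow_ne_zero n hγ0)]
  obtain ⟨i, hi, hi'⟩ := hζ.eq_pow_of_pow_eq_one h3
  have h4 : w (ζ ^ i - 1) < ε := by
    rw [hi', div_sub_one hγ0, hw.div hp, hwγ, div_one]
    exact h2
  have h5 : ζ ^ i = 1 := by
    by_contra h6
    exact absurd h4 (not_lt.2 (hε i hi h6))
  rw [h5] at hi'
  exact (eq_of_div_eq_one hi'.symm)

end

end Pool.Agent.Q273.SP
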